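import Mathlib
set_option autoImplicit false
namespace Pool.Agent.Helper896.FacchiniOre
open scoped NNReal

open OreLocalization nonZeroDivisors in
theorem ens_div (A : Type) [Ring A] [Nontrivial A] [NoZeroDivisors A]
    (hore : ∀ a b : A, b ≠ 0 → ∃ c d : A, c ≠ 0 ∧ c * a = d * b) :
    ∃ (D : Type) (_ : DivisionRing D) (ι : A →+* D), Function.Injective ι ∧
      ∀ d : D, ∃ s r : A, s ≠ 0 ∧ ι s * d = ι r := by
  have h1 : Nonempty (OreSet A⁰) := by
    rw [nonempty_oreSet_iff_of_noZeroDivisors]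
    intro r s
    obtain ⟨c, d, hc, hcd⟩ := hore r s (nonZeroDivisors.coe_ne_zero s)
    exact ⟨d, ⟨c, mem_nonZeroDivisors_of_ne_zero hc⟩, hcd⟩
  obtain ⟨inst⟩ := h1
  let ι : A →+* OreLocalization A⁰ A :=
    { toFun := fun a => a /ₒ (1 : A⁰)
      map_one' := OreLocalization.one_def.symm
      map_mul' := fun a b => (numeratorHom : A →* OreLocalization A⁰ A).map_mul a b
      map_zero' := zero_oreDiv _
      map_add' := fun a b => add_oreDiv.symm }
  refine ⟨OreLocalization A⁰ A, inferInstance, ι, ?_, ?_⟩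
  · exact numeratorHom_inj inf_le_left
  · intro d
    induction d using OreLocalization.ind with
    | _ r s =>
      refine ⟨(s : A), r, nonZeroDivisors.coe_ne_zero s, ?_⟩
      exact OreLocalization.mul_cancel

/-- From a left Ore domain with Gauss norms to a division ring with a nearly simple total valuation ring. -/
theorem exists_nearly_simple_of (A : Type) [Ring A] (N : A → ℝ≥0 → ℝ≥0) (T g g' : A)
    (h0 : ∀ a : A, ∀ ρ : ℝ≥0, 0 < ρ → (N a ρ = 0 ↔ a = 0))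
    (h00 : ∀ a : A, N a 0 = 0)
    (hneg : ∀ a : A, ∀ ρ : ℝ≥0, N (-a) ρ = N a ρ)
    (hadd : ∀ a b : A, ∀ ρ : ℝ≥0, N (a + b) ρ ≤ max (N a ρ) (N b ρ))
    (hmul : ∀ a b : A, ∀ ρ : ℝ≥0, N (a * b) ρ = N a (N b ρ))
    (h1 : ∀ ρ : ℝ≥0, N 1 ρ = ρ)
    (hmono : ∀ a : A, a ≠ 0 → StrictMono (N a))
    (hcont : ∀ a : A, Continuous (N a))
    (hunb : ∀ a : A, a ≠ 0 → ∀ y : ℝ≥0, ∃ ρ : ℝ≥0, y ≤ N a ρ)
    (hT : ∀ ρ : ℝ≥0, N T ρ = ρ ^ 2)
    (hgg' : g * g' = 1) (hg'g : g' * g = 1) (c : ℝ≥0) (hc : 1 < c) (hg : ∀ ρ : ℝ≥0, N g ρ = c * ρ)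
    (hore : ∀ a b : A, b ≠ 0 → ∃ c d : A, c ≠ 0 ∧ c * a = d * b) :
    ∃ (D : Type) (_ : DivisionRing D) (V : Subring D) (γ : D),
      (∀ d : D, d ≠ 0 → d ∈ V ∨ d⁻¹ ∈ V) ∧ γ ∉ V ∧ (∀ d : D, ∃ n : ℕ, d * (γ⁻¹) ^ n ∈ V) ∧
      (∀ e : D, e ∉ V → ∀ b : D, ∃ s ∈ V, ∃ r ∈ V, b = s * e * r) := by
  have hNpos : ∀ a : A, a ≠ 0 → ∀ ρ : ℝ≥0, 0 < ρ → 0 < N a ρ := by
    intro a ha ρ hρ
    rw [pos_iff_ne_zero]
    exact fun h => ha ((h0 a ρ hρ).1 h)
  have hN0 : ∀ ρ : ℝ≥0, N 0 ρ = 0 := by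
    intro ρ
    rcases eq_or_ne ρ 0 with h | h
    · rw [h]; exact h00 0
    · exact (h0 0 ρ (pos_iff_ne_zero.2 h)).2 rfl
  have hmon : ∀ a : A, Monotone (N a) := by
    intro a
    by_cases ha : a = 0
    · subst ha
      intro x y _
      rw [hN0, hN0]
    · exact (hmono a ha).monotone
  have hne1 : (1 : A) ≠ 0 := by
    intro h
    have h2 := (h0 1 1 one_pos).2 h
    rw [h1] at h2
    exact one_ne_zero h2
  haveI : Nontrivial A := ⟨⟨1, 0, hne1⟩⟩
  haveI : NoZeroDivisors A := by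
    refine ⟨fun {a b} hab => ?_⟩
    by_contra hcon
    push Not at hcon
    have h2 := hNpos a hcon.1 _ (hNpos b hcon.2 1 one_pos)
    rw [← hmul, hab, hN0] at h2
    exact lt_irrefl _ h2
  obtain ⟨D, hD, ι, hinj, hfrac⟩ := ens_div A hore
  have hι0 : ∀ a : A, a ≠ 0 → ι a ≠ 0 := fun a ha h => ha (hinj (by rw [h, map_zero]))
  -- the valuation ring
  let V : Subring D :=
    { carrier := {d | ∃ s r : A, s ≠ 0 ∧ ι s * d = ι r ∧ N r 1 ≤ N s 1}
      mul_mem' := by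
        rintro d1 d2 ⟨s, r, hs, hd1, hN1⟩ ⟨u, v, hu, hd2, hN2⟩
        obtain ⟨p, q, hp, hpq⟩ := hore r u hu
        refine ⟨p * s, q * v, mul_ne_zero hp hs, ?_, ?_⟩
        · rw [map_mul, map_mul]
          calc ι p * ι s * (d1 * d2) = ι p * (ι s * d1) * d2 := by noncomm_ring
            _ = (ι p * ι r) * d2 := by rw [hd1]
            _ = (ι q * ι u) * d2 := by rw [← map_mul, hpq, map_mul]
            _ = ι q * (ι u * d2) := by rw [mul_assoc]
            _ = ι q * ι v := by rw [hd2]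
        · rw [hmul, hmul]
          calc N q (N v 1) ≤ N q (N u 1) := hmon q hN2
            _ = N (p * r) 1 := by rw [← hmul, hpq]
            _ = N p (N r 1) := hmul _ _ _
            _ ≤ N p (N s 1) := hmon p hN1
      one_mem' := ⟨1, 1, hne1, by simp, le_refl _⟩
      add_mem' := by
        rintro d1 d2 ⟨s, r, hs, hd1, hN1⟩ ⟨u, v, hu, hd2, hN2⟩
        obtain ⟨p, q, hp, hpq⟩ := hore s u hu
        refine ⟨p * s, p * r + q * v, mul_ne_zero hp hs, ?_, ?_⟩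
        · rw [map_add, map_mul, map_mul, map_mul]
          calc ι p * ι s * (d1 + d2) = ι p * (ι s * d1) + (ι p * ι s) * d2 := by noncomm_ring
            _ = ι p * ι r + (ι q * ι u) * d2 := by rw [hd1, ← map_mul ι p s, hpq, map_mul]
            _ = ι p * ι r + ι q * (ι u * d2) := by rw [mul_assoc]
            _ = ι p * ι r + ι q * ι v := by rw [hd2]
        · refine le_trans (hadd _ _ _) (max_le ?_ ?_)
          · rw [hmul, hmul]; exact hmon p hN1
          · rw [hpq, hmul, hmul]; exact hmon q hN2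
      zero_mem' := ⟨1, 0, hne1, by simp, by rw [hN0]; exact zero_le⟩
      neg_mem' := by
        rintro d ⟨s, r, hs, hd, hN⟩
        exact ⟨s, -r, hs, by rw [mul_neg, hd, map_neg], by rw [hneg]; exact hN⟩ }
  have hV : ∀ d : D, d ∈ V ↔ ∃ s r : A, s ≠ 0 ∧ ι s * d = ι r ∧ N r 1 ≤ N s 1 := fun d => Iff.rfl
  refine ⟨D, hD, V, ι g, ?_, ?_, ?_, ?_⟩
  · intro d hd
    obtain ⟨s, r, hs, hsr⟩ := hfrac d
    have hr : r ≠ 0 := by
      intro h
      rw [h, map_zero] at hsr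
      exact mul_ne_zero (hι0 s hs) hd hsr
    rcases le_total (N r 1) (N s 1) with h | h
    · exact Or.inl ⟨s, r, hs, hsr, h⟩
    · refine Or.inr ⟨r, s, hr, ?_, h⟩
      rw [← hsr, mul_assoc, mul_inv_cancel₀ hd, mul_one]
  · rintro ⟨s, r, hs, hsr, hN⟩
    rw [← map_mul] at hsr
    have h2 := hinj hsr
    rw [← h2, hmul, hg, mul_one] at hN
    exact absurd (hmono s hs hc) (not_lt.2 hN)
  · intro d
    obtain ⟨s, r, hs, hsr⟩ := hfrac d
    have hinv : (ι g)⁻¹ = ι g' := by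
      apply inv_eq_of_mul_eq_one_right
      rw [← map_mul, hgg', map_one]
    have hc0 : c ≠ 0 := (lt_trans one_pos hc).ne'
    have hg' : ∀ ρ, N g' ρ = c⁻¹ * ρ := by
      intro ρ
      have h2 : N g (N g' ρ) = ρ := by rw [← hmul, hgg', h1]
      rw [hg] at h2
      rw [← h2, ← mul_assoc, inv_mul_cancel₀ hc0, one_mul, h2]
    have hgn : ∀ n : ℕ, ∀ ρ, N (g' ^ n) ρ = c⁻¹ ^ n * ρ := by
      intro n
      induction n with
      | zero => intro ρ; rw [pow_zero, pow_zero, h1, one_mul]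
      | succ n ih => intro ρ; rw [pow_succ, hmul, ih, hg', pow_succ, mul_assoc]
    have hlim : Filter.Tendsto (fun n : ℕ => N r (c⁻¹ ^ n * 1)) Filter.atTop (nhds 0) := by
      have h3 : Filter.Tendsto (fun n : ℕ => c⁻¹ ^ n * 1) Filter.atTop (nhds (0 : ℝ≥0)) := by
        simp only [mul_one]
        exact tendsto_pow_atTop_nhds_zero_of_lt_one zero_le (inv_lt_one_of_one_lt₀ hc)
      have h4 := ((hcont r).tendsto 0).comp h3
      rw [h00] at h4
      exact h4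
    obtain ⟨n, hn⟩ := ((hlim.eventually (gt_mem_nhds (hNpos s hs 1 one_pos))).exists)
    refine ⟨n, s, r * g' ^ n, hs, ?_, ?_⟩
    · rw [hinv, map_mul, map_pow, ← mul_assoc, hsr]
    · rw [hmul, hgn]
      exact le_of_lt hn
  · intro e he b
    obtain ⟨s, r, hs, hsr⟩ := hfrac e
    obtain ⟨u, v, hu, huv⟩ := hfrac b
    have hN : N s 1 < N r 1 := by
      by_contra hcon
      exact he ⟨s, r, hs, hsr, not_lt.1 hcon⟩
    have hr : r ≠ 0 := by
      intro h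
      rw [h, hN0] at hN
      exact absurd hN (not_lt.2 zero_le)
    have he0 : e ≠ 0 := by
      intro h
      rw [h, mul_zero] at hsr
      exact hι0 r hr hsr.symm
    have hT0 : T ≠ 0 := by
      intro h
      have h2 := hT 1
      rw [h, hN0] at h2
      norm_num at h2
    have hTn : ∀ i : ℕ, ∀ ρ, N (T ^ i) ρ = ρ ^ (2 ^ i) := by
      intro i
      induction i with
      | zero => intro ρ; rw [pow_zero, pow_zero, h1, pow_one]
      | succ i ih => intro ρ; rw [pow_succ, hmul, ih, hT, ← pow_mul, pow_succ, mul_comm 2]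
    -- choice of ρ
    obtain ⟨ρ, hρ1, hρ⟩ : ∃ ρ : ℝ≥0, 1 < ρ ∧ N s ρ ≤ N r 1 := by
      have h2 : ∀ᶠ x in nhds (1 : ℝ≥0), N s x < N r 1 :=
        ((hcont s).tendsto 1).eventually (gt_mem_nhds hN)
      have h3 : ∀ᶠ x in nhdsWithin (1 : ℝ≥0) (Set.Ioi 1), N s x < N r 1 :=
        h2.filter_mono nhdsWithin_le_nhds
      haveI : (nhdsWithin (1 : ℝ≥0) (Set.Ioi 1)).NeBot := inferInstance
      obtain ⟨x, hx1, hx2⟩ := (h3.and self_mem_nhdsWithin).exists
      exact ⟨x, hx2, hx1.le⟩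
    obtain ⟨ρ0, hρ0⟩ := hunb u hu (N v 1)
    obtain ⟨i, hi⟩ : ∃ i : ℕ, ρ0 ≤ ρ ^ (2 ^ i) := by
      obtain ⟨n, hn⟩ := pow_unbounded_of_one_lt ρ0 hρ1
      refine ⟨n, le_trans hn.le ?_⟩
      exact pow_le_pow_right₀ hρ1.le (Nat.lt_two_pow_self).le
    obtain ⟨p, q, hp, hpq⟩ := hore s (u * T ^ i) (mul_ne_zero hu (pow_ne_zero i hT0))
    have hTi : ι (T ^ i) ≠ 0 := hι0 _ (pow_ne_zero i hT0)
    refine ⟨ι (T ^ i), ⟨1, T ^ i, hne1, by simp, ?_⟩, e⁻¹ * (ι (T ^ i))⁻¹ * b,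
      ⟨p * r, q * v, mul_ne_zero hp hr, ?_, ?_⟩, ?_⟩
    · rw [hTn, h1, one_pow]
    · have h2 : ι r * e⁻¹ = ι s := by
        rw [← hsr, mul_assoc, mul_inv_cancel₀ he0, mul_one]
      calc ι (p * r) * (e⁻¹ * (ι (T ^ i))⁻¹ * b) = ι p * (ι r * e⁻¹) * (ι (T ^ i))⁻¹ * b := by
            rw [map_mul]; noncomm_ring
        _ = ι (p * s) * (ι (T ^ i))⁻¹ * b := by rw [h2, map_mul]
        _ = ι q * ι u * (ι (T ^ i) * (ι (T ^ i))⁻¹) * b := by
            rw [hpq, map_mul, map_mul]; noncomm_ring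
        _ = ι q * (ι u * b) := by rw [mul_inv_cancel₀ hTi, mul_one, mul_assoc]
        _ = ι (q * v) := by rw [huv, map_mul]
    · rw [hmul, hmul]
      calc N q (N v 1) ≤ N q (N u (ρ ^ (2 ^ i))) :=
            hmon q (le_trans hρ0 (hmon u hi))
        _ = N q (N (u * T ^ i) ρ) := by rw [hmul u, hTn]
        _ = N (p * s) ρ := by rw [← hmul, hpq]
        _ = N p (N s ρ) := hmul _ _ _
        _ ≤ N p (N r 1) := hmon p hρ
    · calc b = (ι (T ^ i) * (e * e⁻¹) * (ι (T ^ i))⁻¹) * b := by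
            rw [mul_inv_cancel₀ he0, mul_one, mul_inv_cancel₀ hTi, one_mul]
        _ = ι (T ^ i) * e * (e⁻¹ * (ι (T ^ i))⁻¹ * b) := by noncomm_ring

end Pool.Agent.Helper896.FacchiniOre
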