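import Mathlib
set_option autoImplicit false
namespace Pool.Agent.Helper896.Facchini

section transfer
variable {V : Type} [Ring V] {M : Type} [AddCommGroup M] [Module V M]

/-- `Z` as an additive endomorphism -/
def zEnd (Z : M →ₗ[V] M) : AddMonoid.End M := Z.toAddMonoidHom

/-- the operator ring generated by the scalars of `V` and `Z`. -/
def opRing (Z : M →ₗ[V] M) : Subring (AddMonoid.End M) :=
  Subring.closure (Set.range (Module.toAddMonoidEnd V M) ∪ {zEnd Z})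

theorem opRing_smul_mem (Z : M →ₗ[V] M) (A : Submodule V M) (hA : A ≤ A.comap Z) (r : opRing Z) (a : M)
    (ha : a ∈ A) : r • a ∈ A := by
  obtain ⟨r, hr⟩ := r
  change (r : AddMonoid.End M) a ∈ A
  revert a
  unfold opRing at hr
  refine Subring.closure_induction (p := fun r _ => ∀ a ∈ A, (r : AddMonoid.End M) a ∈ A) ?_ ?_ ?_ ?_ ?_ ?_ hr
  · rintro x (⟨v, rfl⟩ | hx) a ha
    · exact A.smul_mem v ha
    · rw [Set.mem_singleton_iff.mp hx]
      exact hA ha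
  · intro a _; exact A.zero_mem
  · intro a ha; exact ha
  · intro x y _ _ hx hy a ha; exact A.add_mem (hx a ha) (hy a ha)
  · intro x _ hx a ha; exact A.neg_mem (hx a ha)
  · intro x y _ _ hx hy a ha; exact hx _ (hy a ha)

/-- a `Z`-stable `V`-submodule as a submodule over the operator ring -/
def toR (Z : M →ₗ[V] M) (A : Submodule V M) (hA : A ≤ A.comap Z) : Submodule (opRing Z) M where
  carrier := A
  add_mem' := A.add_mem
  zero_mem' := A.zero_mem
  smul_mem' := fun r a ha => opRing_smul_mem Z A hA r a ha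

/-- a submodule over the operator ring as `V`-submodule -/
def toV (Z : M →ₗ[V] M) (A : Submodule (opRing Z) M) : Submodule V M where
  carrier := A
  add_mem' := A.add_mem
  zero_mem' := A.zero_mem
  smul_mem' := fun v a ha =>
    A.smul_mem (⟨Module.toAddMonoidEnd V M v, Subring.subset_closure (Or.inl ⟨v, rfl⟩)⟩ : opRing Z) ha

theorem toV_stable (Z : M →ₗ[V] M) (A : Submodule (opRing Z) M) : toV Z A ≤ (toV Z A).comap Z := by
  intro a ha
  exact A.smul_mem (⟨zEnd Z, Subring.subset_closure (Or.inr rfl)⟩ : opRing Z) ha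

@[simp] theorem mem_toR (Z : M →ₗ[V] M) (A : Submodule V M) (hA : A ≤ A.comap Z) (x : M) :
    x ∈ toR Z A hA ↔ x ∈ A := Iff.rfl
@[simp] theorem mem_toV (Z : M →ₗ[V] M) (A : Submodule (opRing Z) M) (x : M) :
    x ∈ toV Z A ↔ x ∈ A := Iff.rfl

theorem toR_toV (Z : M →ₗ[V] M) (A : Submodule (opRing Z) M) : toR Z (toV Z A) (toV_stable Z A) = A := by
  ext x; rfl

theorem toV_mono (Z : M →ₗ[V] M) {A B : Submodule (opRing Z) M} (h : A ≤ B) : toV Z A ≤ toV Z B := h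

theorem toV_sup (Z : M →ₗ[V] M) (A B : Submodule (opRing Z) M) : toV Z (A ⊔ B) = toV Z A ⊔ toV Z B := by
  ext x
  simp only [mem_toV, Submodule.mem_sup]

theorem toV_inf (Z : M →ₗ[V] M) (A B : Submodule (opRing Z) M) : toV Z (A ⊓ B) = toV Z A ⊓ toV Z B := by
  ext x; rfl

theorem toV_bot (Z : M →ₗ[V] M) : toV Z (⊥ : Submodule (opRing Z) M) = ⊥ := by
  ext x; rfl

theorem iSup_stable {ι : Sort*} (Z : M →ₗ[V] M) (U : ι → Submodule V M) (hU : ∀ i, U i ≤ (U i).comap Z) :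
    (⨆ i, U i) ≤ (⨆ i, U i).comap Z :=
  iSup_le fun i => (hU i).trans (Submodule.comap_mono (le_iSup U i))

theorem transfer (Z : M →ₗ[V] M) (ι : Type) (U : ι → Submodule V M) (hind : iSupIndep U)
    (hsup : (⨆ i, U i) = ⊤) (hUZ : ∀ i, U i ≤ (U i).comap Z)
    (hch : ∀ i, ∀ A B : Submodule V M, A ≤ U i → B ≤ U i → A ≤ B ∨ B ≤ A)
    (N C : Submodule V M) (hNZ : N ≤ N.comap Z) (hCZ : C ≤ C.comap Z) (hNC : IsCompl N C)
    (hN : N ≠ ⊥)
    (hdec : ∀ A B : Submodule V M, A ≤ A.comap Z → B ≤ B.comap Z → A ⊔ B = N → A ⊓ B = ⊥ → A = ⊥ ∨ B = ⊥)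
    (A B : Submodule V M) (hAZ : A ≤ A.comap Z) (hBZ : B ≤ B.comap Z) (hAN : A ≤ N) (hBN : B ≤ N)
    (hAB : ¬ A ≤ B) (hBA : ¬ B ≤ A) :
    ¬ (∀ (R : Type) [Ring R] (M : Type) [AddCommGroup M] [Module R M],
      (∃ (ι : Type) (U : ι → Submodule R M),
          iSupIndep U ∧ (⨆ i, U i) = ⊤ ∧
          ∀ i, ∀ A B : Submodule R M, A ≤ U i → B ≤ U i → A ≤ B ∨ B ≤ A) →
      ∀ N : Submodule R M,
        (∃ N' : Submodule R M, IsCompl N N') →
        N ≠ ⊥ →
        (∀ A B : Submodule R M, A ⊔ B = N → A ⊓ B = ⊥ → A = ⊥ ∨ B = ⊥) →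
        ∀ A B : Submodule R M, A ≤ N → B ≤ N → A ≤ B ∨ B ≤ A) := by
  intro H
  have hle : ∀ (κ : Type) (W : κ → Submodule V M) (hW : ∀ i, W i ≤ (W i).comap Z) (x : M),
      x ∈ (⨆ i, toR Z (W i) (hW i)) → x ∈ ⨆ i, W i := by
    intro κ W hW x hx
    have : (⨆ i, toR Z (W i) (hW i)) ≤ toR Z (⨆ i, W i) (iSup_stable Z W hW) :=
      iSup_le fun i => fun y hy => (le_iSup W i) hy
    exact this hx
  have hge : ∀ (κ : Type) (W : κ → Submodule V M) (hW : ∀ i, W i ≤ (W i).comap Z) (x : M),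
      x ∈ (⨆ i, W i) → x ∈ (⨆ i, toR Z (W i) (hW i)) := by
    intro κ W hW x hx
    have : (⨆ i, W i) ≤ toV Z (⨆ i, toR Z (W i) (hW i)) :=
      iSup_le fun i => fun y hy => (le_iSup (fun i => toR Z (W i) (hW i)) i) hy
    exact this hx
  have key := H (opRing Z) M ⟨ι, fun i => toR Z (U i) (hUZ i), ?_, ?_, ?_⟩ (toR Z N hNZ)
    ⟨toR Z C hCZ, ?_⟩ ?_ ?_ (toR Z A hAZ) (toR Z B hBZ) hAN hBN
  · rcases key with h | h
    · exact hAB h
    · exact hBA h
  · intro i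
    rw [Submodule.disjoint_def]
    intro x hx hx2
    have hx3 : x ∈ ⨆ j, ⨆ (_ : j ≠ i), U j := by
      have hst : ∀ j, (⨆ (_ : j ≠ i), U j) ≤ (⨆ (_ : j ≠ i), U j).comap Z := fun j =>
        iSup_stable Z (fun _ : j ≠ i => U j) fun _ => hUZ j
      have : (⨆ j, ⨆ (_ : j ≠ i), toR Z (U j) (hUZ j)) ≤ toR Z (⨆ j, ⨆ (_ : j ≠ i), U j)
          (iSup_stable Z _ hst) := by
        refine iSup_le fun j => iSup_le fun hj => fun y hy => ?_
        exact (le_iSup_of_le j (le_iSup_of_le hj le_rfl) : U j ≤ ⨆ j, ⨆ (_ : j ≠ i), U j) hy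
      exact this hx2
    have := hind i
    rw [Submodule.disjoint_def] at this
    exact this x hx hx3
  · rw [eq_top_iff]
    intro x _
    apply hge
    rw [hsup]; trivial
  · intro i A' B' hA' hB'
    rcases hch i (toV Z A') (toV Z B') hA' hB' with h | h
    · exact Or.inl h
    · exact Or.inr h
  · constructor
    · rw [Submodule.disjoint_def]
      intro x hx hx2
      have := hNC.disjoint
      rw [Submodule.disjoint_def] at this
      exact this x hx hx2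
    · rw [codisjoint_iff, eq_top_iff]
      intro x _
      have h1 : x ∈ N ⊔ C := by rw [hNC.codisjoint.eq_top]; trivial
      rw [Submodule.mem_sup] at h1 ⊢
      exact h1
  · intro h
    apply hN
    rw [eq_bot_iff]
    intro x hx
    have : x ∈ toR Z N hNZ := hx
    rw [h] at this
    exact this
  · intro A' B' h1 h2
    have e1 : toV Z A' ⊔ toV Z B' = N := by
      rw [← toV_sup, h1]; rfl
    have e2 : toV Z A' ⊓ toV Z B' = ⊥ := by
      rw [← toV_inf, h2, toV_bot]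
    rcases hdec _ _ (toV_stable Z A') (toV_stable Z B') e1 e2 with h | h
    · left
      rw [← toR_toV Z A', eq_bot_iff]
      intro x hx
      have : x ∈ toV Z A' := hx
      rw [h] at this
      exact this
    · right
      rw [← toR_toV Z B', eq_bot_iff]
      intro x hx
      have : x ∈ toV Z B' := hx
      rw [h] at this
      exact this

end transfer

section assembly

theorem assembly {V : Type} [Ring V] {N : Type} [AddCommGroup N] [Module V N] (Z : N →ₗ[V] N)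
    (ι : Type) (X : ι → Type) [∀ i, AddCommGroup (X i)] [∀ i, Module V (X i)]
    (ZX : ∀ i, X i →ₗ[V] X i) (Φ : ∀ i, X i →ₗ[V] N) (σ : ∀ i, N →ₗ[V] X i)
    (hΦ : ∀ i x, Φ i (ZX i x) = Z (Φ i x)) (hσ : ∀ i x, σ i (Z x) = ZX i (σ i x))
    (hfin : ∀ x, ∃ s : Finset ι, ∀ i, i ∉ s → σ i x = 0)
    (hsum : ∀ x, ∀ s : Finset ι, (∀ i, i ∉ s → σ i x = 0) → ∑ i ∈ s, Φ i (σ i x) = x)
    (huni : ∀ i, ∀ A B : Submodule V (X i), A ≤ B ∨ B ≤ A)
    (hdec : ∀ A B : Submodule V N, A ≤ A.comap Z → B ≤ B.comap Z → A ⊔ B = ⊤ → A ⊓ B = ⊥ →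
      A = ⊥ ∨ B = ⊥)
    (A B : Submodule V N) (hAZ : A ≤ A.comap Z) (hBZ : B ≤ B.comap Z)
    (hAB : ¬ A ≤ B) (hBA : ¬ B ≤ A) :
    ¬ (∀ (R : Type) [Ring R] (M : Type) [AddCommGroup M] [Module R M],
      (∃ (ι : Type) (U : ι → Submodule R M),
          iSupIndep U ∧ (⨆ i, U i) = ⊤ ∧
          ∀ i, ∀ A B : Submodule R M, A ≤ U i → B ≤ U i → A ≤ B ∨ B ≤ A) →
      ∀ N : Submodule R M,
        (∃ N' : Submodule R M, IsCompl N N') →
        N ≠ ⊥ →
        (∀ A B : Submodule R M, A ⊔ B = N → A ⊓ B = ⊥ → A = ⊥ ∨ B = ⊥) →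
        ∀ A B : Submodule R M, A ≤ N → B ≤ N → A ≤ B ∨ B ≤ A) := by
  classical
  -- the serial module
  let ZM : (Π₀ i, X i) →ₗ[V] (Π₀ i, X i) := DFinsupp.mapRange.linearMap ZX
  have hZM : ∀ (x : Π₀ i, X i) i, ZM x i = ZX i (x i) := fun x i => by
    simp [ZM]
  choose s hs using hfin
  let sg : N →ₗ[V] (Π₀ i, X i) :=
    { toFun := fun x => ⟨fun i => σ i x, Trunc.mk ⟨(s x).val, fun i => by
        by_cases h : i ∈ s x
        · exact Or.inl h
        · exact Or.inr (hs x i h)⟩⟩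
      map_add' := fun x y => by ext i; exact map_add (σ i) x y
      map_smul' := fun v x => by ext i; exact map_smul (σ i) v x }
  have hsg : ∀ x i, sg x i = σ i x := fun x i => rfl
  let Ph : (Π₀ i, X i) →ₗ[V] N := DFinsupp.lsum ℕ Φ
  have hPh1 : ∀ i (y : X i), Ph (DFinsupp.single i y) = Φ i y := fun i y => by
    simp [Ph, DFinsupp.lsum_single]
  have hrep : ∀ x, sg x = ∑ i ∈ s x, DFinsupp.single i (σ i x) := by
    intro x
    ext i
    rw [DFinsupp.finset_sum_apply, hsg]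
    by_cases h : i ∈ s x
    · rw [Finset.sum_eq_single i]
      · simp
      · intro j _ hj; exact DFinsupp.single_eq_of_ne hj.symm
      · intro h'; exact absurd h h'
    · rw [hs x i h, Finset.sum_eq_zero]
      intro j hj
      have : j ≠ i := fun e => h (e ▸ hj)
      exact DFinsupp.single_eq_of_ne this.symm
  have hPS : ∀ x, Ph (sg x) = x := by
    intro x
    rw [hrep, map_sum]
    simp only [hPh1]
    exact hsum x (s x) (hs x)
  have hinj : Function.Injective sg := fun x y h => by rw [← hPS x, ← hPS y, h]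
  have hsgZ : ∀ x, sg (Z x) = ZM (sg x) := by
    intro x; ext i
    rw [hsg, hZM, hsg, hσ]
  have hPhZ : ∀ x, Ph (ZM x) = Z (Ph x) := by
    intro x
    have : Ph.comp ZM = Z.comp Ph := by
      refine DFinsupp.lhom_ext fun i y => ?_
      simp only [LinearMap.comp_apply]
      rw [hPh1, ← hΦ, ← hPh1]
      congr 1
      simp [ZM]
    exact LinearMap.congr_fun this x
  have hcov : ∀ (A' : Submodule V (Π₀ i, X i)), A' ≤ LinearMap.range sg →
      A' = (A'.comap sg).map sg := by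
    intro A' hA'
    rw [Submodule.map_comap_eq, inf_eq_right.mpr hA']
  refine transfer ZM ι (fun i => LinearMap.range (DFinsupp.lsingle i : X i →ₗ[V] Π₀ i, X i)) ?_ ?_ ?_ ?_
    (LinearMap.range sg) (LinearMap.ker Ph) ?_ ?_ ?_ ?_ ?_ (A.map sg) (B.map sg) ?_ ?_ ?_ ?_ ?_ ?_
  · intro i
    rw [Submodule.disjoint_def]
    rintro x ⟨y, rfl⟩ hx
    have hle : (⨆ j, ⨆ (_ : j ≠ i), LinearMap.range (DFinsupp.lsingle j : X j →ₗ[V] Π₀ i, X i)) ≤
        LinearMap.ker (DFinsupp.lapply i : (Π₀ i, X i) →ₗ[V] X i) := by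
      refine iSup_le fun j => iSup_le fun hj => ?_
      rintro _ ⟨z, rfl⟩
      rw [LinearMap.mem_ker]
      simp only [DFinsupp.lapply_apply, DFinsupp.lsingle_apply]
      exact DFinsupp.single_eq_of_ne hj.symm
    have h1 := hle hx
    rw [LinearMap.mem_ker] at h1
    simp only [DFinsupp.lapply_apply, DFinsupp.lsingle_apply, DFinsupp.single_eq_same] at h1
    rw [h1, map_zero]
  · rw [eq_top_iff]
    intro x _
    induction x using DFinsupp.induction with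
    | h0 => exact Submodule.zero_mem _
    | ha i b f _ _ ih =>
      exact Submodule.add_mem _ ((le_iSup (fun i => LinearMap.range (DFinsupp.lsingle i : X i →ₗ[V] Π₀ i, X i)) i)
        ⟨b, rfl⟩) (ih trivial)
  · rintro i _ ⟨y, rfl⟩
    refine ⟨ZX i y, ?_⟩
    ext j
    rw [hZM]
    simp only [DFinsupp.lsingle_apply]
    by_cases h : j = i
    · subst h; simp
    · rw [DFinsupp.single_eq_of_ne h, DFinsupp.single_eq_of_ne h, map_zero]
  · intro i A' B' hA' hB'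
    have eA : A' = (A'.comap (DFinsupp.lsingle i)).map (DFinsupp.lsingle i) := by
      rw [Submodule.map_comap_eq, inf_eq_right.mpr hA']
    have eB : B' = (B'.comap (DFinsupp.lsingle i)).map (DFinsupp.lsingle i) := by
      rw [Submodule.map_comap_eq, inf_eq_right.mpr hB']
    rcases huni i (A'.comap (DFinsupp.lsingle i)) (B'.comap (DFinsupp.lsingle i)) with h | h
    · left; rw [eA, eB]; exact Submodule.map_mono h
    · right; rw [eA, eB]; exact Submodule.map_mono h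
  · rintro _ ⟨y, rfl⟩
    exact ⟨Z y, hsgZ y⟩
  · intro x hx
    rw [LinearMap.mem_ker] at hx
    change Ph (ZM x) = 0
    rw [hPhZ, hx, map_zero]
  · constructor
    · rw [Submodule.disjoint_def]
      rintro _ ⟨y, rfl⟩ hy
      rw [LinearMap.mem_ker, hPS] at hy
      rw [hy, map_zero]
    · rw [codisjoint_iff, eq_top_iff]
      intro x _
      rw [Submodule.mem_sup]
      refine ⟨sg (Ph x), ⟨_, rfl⟩, x - sg (Ph x), ?_, by abel⟩
      rw [LinearMap.mem_ker, map_sub, hPS, sub_self]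
  · intro h
    apply hAB
    intro a ha
    have : sg a ∈ LinearMap.range sg := ⟨a, rfl⟩
    rw [h, Submodule.mem_bot] at this
    have h0 : a = 0 := hinj (by rw [this, map_zero])
    rw [h0]; exact B.zero_mem
  · intro A' B' hA' hB' hsup hinf
    have hAr : A' ≤ LinearMap.range sg := hsup ▸ le_sup_left
    have hBr : B' ≤ LinearMap.range sg := hsup ▸ le_sup_right
    have hAs : A'.comap sg ≤ (A'.comap sg).comap Z := by
      intro x hx
      change sg (Z x) ∈ A'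
      rw [hsgZ]; exact hA' hx
    have hBs : B'.comap sg ≤ (B'.comap sg).comap Z := by
      intro x hx
      change sg (Z x) ∈ B'
      rw [hsgZ]; exact hB' hx
    have htop : A'.comap sg ⊔ B'.comap sg = ⊤ := by
      rw [eq_top_iff]
      intro x _
      have hx : sg x ∈ A' ⊔ B' := by rw [hsup]; exact ⟨x, rfl⟩
      rw [Submodule.mem_sup] at hx
      obtain ⟨a, ha, b, hb, hab⟩ := hx
      obtain ⟨a0, rfl⟩ := hAr ha
      obtain ⟨b0, rfl⟩ := hBr hb
      rw [← map_add] at hab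
      rw [← hinj hab]
      exact Submodule.add_mem_sup ha hb
    have hbot : A'.comap sg ⊓ B'.comap sg = ⊥ := by
      rw [eq_bot_iff]
      rintro x ⟨hx1, hx2⟩
      have : sg x ∈ A' ⊓ B' := ⟨hx1, hx2⟩
      rw [hinf, Submodule.mem_bot] at this
      exact hinj (by rw [this, map_zero])
    rcases hdec (A'.comap sg) (B'.comap sg) hAs hBs htop hbot with h | h
    · left; rw [hcov A' hAr, h, Submodule.map_bot]
    · right; rw [hcov B' hBr, h, Submodule.map_bot]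
  · rintro _ ⟨a, ha, rfl⟩
    exact ⟨Z a, hAZ ha, hsgZ a⟩
  · rintro _ ⟨a, ha, rfl⟩
    exact ⟨Z a, hBZ ha, hsgZ a⟩
  · rintro _ ⟨a, _, rfl⟩; exact ⟨a, rfl⟩
  · rintro _ ⟨a, _, rfl⟩; exact ⟨a, rfl⟩
  · intro h
    apply hAB
    intro a ha
    obtain ⟨b, hb, hab⟩ := h ⟨a, ha, rfl⟩
    rw [← hinj hab]; exact hb
  · intro h
    apply hBA
    intro a ha
    obtain ⟨b, hb, hab⟩ := h ⟨a, ha, rfl⟩
    rw [← hinj hab]; exact hb

end assembly

section splitting
variable {V : Type} [Ring V] {N : Type} [AddCommGroup N] [Module V N]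

/-- finite composites `r n ∘ r (n+1) ∘ ... ∘ r (n+k-1)` -/
def qcomp (r : ℕ → N →ₗ[V] N) (n : ℕ) : ℕ → N →ₗ[V] N
  | 0 => LinearMap.id
  | k + 1 => (qcomp r n k).comp (r (n + k))

theorem qcomp_stab (F : ℕ → Submodule V N) (hF : Monotone F) (r : ℕ → N →ₗ[V] N)
    (hid : ∀ n, ∀ x ∈ F n, r n x = x) (n j : ℕ) (x : N) (hx : x ∈ F j) (k k' : ℕ) (hj : j ≤ n + k)
    (hk : k ≤ k') : qcomp r n k' x = qcomp r n k x := by
  induction k', hk using Nat.le_induction with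
  | base => rfl
  | succ m hm ih =>
    rw [← ih]
    change qcomp r n m (r (n + m) x) = qcomp r n m x
    rw [hid (n + m) x (hF (by omega) hx)]

theorem qcomp_mem (F : ℕ → Submodule V N) (r : ℕ → N →ₗ[V] N)
    (hr : ∀ n, ∀ x ∈ F (n + 2), r n x ∈ F (n + 1)) (n : ℕ) :
    ∀ (k : ℕ) (x : N), x ∈ F (n + k + 1) → qcomp r n k x ∈ F (n + 1) := by
  intro k
  induction k with
  | zero => intro x hx; exact hx
  | succ k ih =>
    intro x hx
    exact ih _ (hr (n + k) x hx)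

theorem splitting (Z : N →ₗ[V] N)
    (F : ℕ → Submodule V N) (hF : Monotone F) (hU : ∀ x, ∃ n, x ∈ F n) (r : ℕ → N →ₗ[V] N)
    (hrZ : ∀ n x, r n (Z x) = Z (r n x))
    (hid : ∀ n, ∀ x ∈ F n, r n x = x) (hr : ∀ n, ∀ x ∈ F (n + 2), r n x ∈ F (n + 1)) :
    ∃ π : ℕ → N →ₗ[V] N, (∀ n x, π n (Z x) = Z (π n x)) ∧ (∀ n x, π n x ∈ F (n + 1)) ∧
      (∀ x, ∃ k, ∀ n, k ≤ n → π n x = 0) ∧
      (∀ x k, (∀ n, k ≤ n → π n x = 0) → ∑ n ∈ Finset.range k, π n x = x) := by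
  classical
  choose K hK using hU
  have hq : ∀ n x k, K x ≤ k → qcomp r n k x = qcomp r n (K x) x := fun n x k hk =>
    qcomp_stab F hF r hid n (K x) x (hK x) (K x) k (by omega) hk
  have hqZ : ∀ n k x, qcomp r n k (Z x) = Z (qcomp r n k x) := by
    intro n k
    induction k with
    | zero => intro x; rfl
    | succ k ih => intro x; change qcomp r n k (r (n + k) (Z x)) = Z (qcomp r n k (r (n + k) x)); rw [hrZ, ih]
  let p : ℕ → N →ₗ[V] N := fun n =>
    { toFun := fun x => qcomp r n (K x) x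
      map_add' := by
        intro x y
        have h1 := hq n x (max (K x) (max (K y) (K (x + y)))) (by simp)
        have h2 := hq n y (max (K x) (max (K y) (K (x + y)))) (by simp)
        have h3 := hq n (x + y) (max (K x) (max (K y) (K (x + y)))) (by simp)
        rw [← h1, ← h2, ← h3, map_add]
      map_smul' := by
        intro v x
        have h1 := hq n x (max (K x) (K (v • x))) (by simp)
        have h2 := hq n (v • x) (max (K x) (K (v • x))) (by simp)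
        simp only [RingHom.id_apply]
        rw [← h1, ← h2, map_smul] }
  have hp : ∀ n x, p n x = qcomp r n (K x) x := fun n x => rfl
  have hpk : ∀ n x k, K x ≤ k → p n x = qcomp r n k x := fun n x k hk => (hq n x k hk).symm
  have hpZ : ∀ n x, p n (Z x) = Z (p n x) := by
    intro n x
    rw [hpk n x (max (K x) (K (Z x))) (by simp), hpk n (Z x) (max (K x) (K (Z x))) (by simp), hqZ]
  have hpm : ∀ n x, p n x ∈ F (n + 1) := by
    intro n x
    rw [hp]
    exact qcomp_mem F r hr n (K x) x (hF (by omega) (hK x))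
  have hpid : ∀ n x m, x ∈ F m → m ≤ n → p n x = x := by
    intro n x m hx hm
    rw [hp, qcomp_stab F hF r hid n n x (hF hm hx) 0 (K x) (by omega) (by omega)]
    rfl
  refine ⟨fun n => match n with | 0 => p 0 | n + 1 => p (n + 1) - p n, ?_, ?_, ?_, ?_⟩
  · intro n x
    rcases n with _ | n
    · exact hpZ 0 x
    · simp only [LinearMap.sub_apply, map_sub, hpZ]
  · intro n x
    rcases n with _ | n
    · exact hpm 0 x
    · simp only [LinearMap.sub_apply]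
      exact Submodule.sub_mem _ (hpm (n + 1) x) (hF (by omega) (hpm n x))
  · intro x
    refine ⟨K x + 1, ?_⟩
    intro n hn
    obtain ⟨m, rfl⟩ : ∃ m, n = m + 1 := ⟨n - 1, by omega⟩
    simp only [LinearMap.sub_apply]
    rw [hpid (m + 1) x (K x) (hK x) (by omega), hpid m x (K x) (hK x) (by omega), sub_self]
  · intro x k hk
    have tele : ∀ m, ∑ n ∈ Finset.range (m + 1),
        ((fun n => match n with | 0 => p 0 | n + 1 => p (n + 1) - p n : ℕ → N →ₗ[V] N) n) x = p m x := by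
      intro m
      induction m with
      | zero => simp
      | succ m ih => rw [Finset.sum_range_succ, ih]; simp
    have h1 := tele (max k (K x))
    rw [hpid (max k (K x)) x (K x) (hK x) (by simp)] at h1
    rw [← Finset.sum_subset (Finset.range_subset_range.mpr (by omega : k ≤ max k (K x) + 1))] at h1
    · exact h1
    · intro n _ hn
      exact hk n (by simpa using hn)

end splitting

section core
variable {D : Type} [DivisionRing D] (V : Subring D)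

/-- `V` as a left `V`-submodule of `D`. -/
def Vs : Submodule V D where
  carrier := V
  add_mem' := V.add_mem
  zero_mem' := V.zero_mem
  smul_mem' := fun c _ hx => V.mul_mem c.2 hx

/-- the uniserial module `D / V` -/
abbrev W := D ⧸ Vs V

/-- the quotient map -/
def mk : D →ₗ[V] W V := (Vs V).mkQ

theorem mk_surj : Function.Surjective (mk V) := (Vs V).mkQ_surjective

theorem mk_eq_zero {d : D} : mk V d = 0 ↔ d ∈ V := by
  unfold mk
  rw [Submodule.mkQ_apply, Submodule.Quotient.mk_eq_zero]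
  rfl

theorem smul_mk (v : V) (d : D) : v • mk V d = mk V ((v : D) * d) := by
  rw [← map_smul]; rfl

/-- right multiplication on `D` -/
def mulD (a : D) : D →ₗ[V] D where
  toFun := fun d => d * a
  map_add' := fun x y => add_mul x y a
  map_smul' := fun v x => by
    change ((v : D) * x) * a = (v : D) * (x * a)
    rw [mul_assoc]

/-- right multiplication on `D / V` -/
def mulW (a : V) : W V →ₗ[V] W V :=
  (Vs V).mapQ (Vs V) (mulD V a) (fun _ hx => V.mul_mem hx a.2)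

@[simp] theorem mulW_mk (a : V) (d : D) : mulW V a (mk V d) = mk V (d * a) := by
  unfold mulW mk
  rw [Submodule.mkQ_apply, Submodule.mapQ_apply]
  rfl

theorem mulW_zero : mulW V 0 = 0 := by
  apply LinearMap.ext
  intro w
  obtain ⟨d, rfl⟩ := mk_surj V w
  rw [mulW_mk]
  simp

/-- the cyclic submodule `V x / V` -/
def K (x : D) : Submodule V (W V) := Submodule.span V {mk V x}

theorem mem_K {x : D} {w : W V} : w ∈ K V x ↔ ∃ v ∈ V, w = mk V (v * x) := by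
  unfold K
  rw [Submodule.mem_span_singleton]
  constructor
  · rintro ⟨v, rfl⟩
    exact ⟨v, v.2, smul_mk V v x⟩
  · rintro ⟨v, hv, rfl⟩
    exact ⟨⟨v, hv⟩, smul_mk V _ x⟩

theorem chainW (hV : ∀ d : D, d ≠ 0 → d ∈ V ∨ d⁻¹ ∈ V) (A B : Submodule V (W V)) : A ≤ B ∨ B ≤ A := by
  by_contra h
  push Not at h
  obtain ⟨h1, h2⟩ := h
  obtain ⟨x, hxA, hxB⟩ := SetLike.not_le_iff_exists.mp h1
  obtain ⟨y, hyB, hyA⟩ := SetLike.not_le_iff_exists.mp h2
  obtain ⟨x, rfl⟩ := mk_surj V x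
  obtain ⟨y, rfl⟩ := mk_surj V y
  have hx0 : x ≠ 0 := by rintro rfl; exact hxB (by rw [map_zero]; exact B.zero_mem)
  have hy0 : y ≠ 0 := by rintro rfl; exact hyA (by rw [map_zero]; exact A.zero_mem)
  rcases hV (x * y⁻¹) (mul_ne_zero hx0 (inv_ne_zero hy0)) with h | h
  · apply hxB
    have : mk V x = (⟨x * y⁻¹, h⟩ : V) • mk V y := by
      rw [smul_mk]; simp [hy0]
    rw [this]; exact B.smul_mem _ hyB
  · apply hyA
    rw [mul_inv_rev, inv_inv] at h
    have : mk V y = (⟨y * x⁻¹, h⟩ : V) • mk V x := by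
      rw [smul_mk]; simp [hx0]
    rw [this]; exact A.smul_mem _ hxA

/-- nonunits of `V` -/
def NU (s : D) : Prop := s ∈ V ∧ (s = 0 ∨ s⁻¹ ∉ V)

theorem one_add_unit (hV : ∀ d : D, d ≠ 0 → d ∈ V ∨ d⁻¹ ∈ V) {s : D} (hs : NU V s) :
    1 + s ≠ 0 ∧ (1 + s)⁻¹ ∈ V := by
  obtain ⟨hsV, hs⟩ := hs
  by_cases h0 : s = 0
  · subst h0; simp [V.one_mem]
  have hs' : s⁻¹ ∉ V := hs.resolve_left h0
  have h1 : 1 + s ≠ 0 := by
    intro h
    have : s = -1 := eq_neg_of_add_eq_zero_right h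
    rw [this] at hs'
    apply hs'
    rw [inv_neg, inv_one]
    exact V.neg_mem V.one_mem
  refine ⟨h1, ?_⟩
  rcases hV ((1 + s) * s⁻¹) (mul_ne_zero h1 (inv_ne_zero h0)) with h | h
  · exfalso
    apply hs'
    have : s⁻¹ = (1 + s) * s⁻¹ - 1 := by
      rw [add_mul, one_mul, mul_inv_cancel₀ h0]; abel
    rw [this]
    exact V.sub_mem h V.one_mem
  · rw [mul_inv_rev, inv_inv] at h
    have : (1 + s)⁻¹ = 1 - s * (1 + s)⁻¹ := by
      have h2 : (1 + s) * (1 + s)⁻¹ = 1 := mul_inv_cancel₀ h1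
      rw [add_mul, one_mul] at h2
      exact eq_sub_of_add_eq h2
    rw [this]
    exact V.sub_mem V.one_mem h

theorem NU_mul {x y : D} (hx : NU V x) (hy : y ∈ V) : NU V (x * y) := by
  refine ⟨V.mul_mem hx.1 hy, ?_⟩
  by_cases hx0 : x = 0
  · left; rw [hx0, zero_mul]
  by_cases hy0 : y = 0
  · left; rw [hy0, mul_zero]
  right
  intro h
  apply hx.2.resolve_left hx0
  have : x⁻¹ = y * (x * y)⁻¹ := by
    rw [mul_inv_rev, ← mul_assoc, mul_inv_cancel₀ hy0, one_mul]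
  rw [this]
  exact V.mul_mem hy h

theorem NU_neg {x : D} (hx : NU V x) : NU V (-x) := by
  refine ⟨V.neg_mem hx.1, ?_⟩
  rcases hx.2 with h | h
  · left; rw [h, neg_zero]
  · right
    intro h2
    apply h
    rw [inv_neg] at h2
    simpa using V.neg_mem h2

variable {V} {g : D}

theorem g_ne (hg : g ∉ V) : g ≠ 0 := by rintro rfl; exact hg V.zero_mem

theorem ginv_mem (hV : ∀ d : D, d ≠ 0 → d ∈ V ∨ d⁻¹ ∈ V) (hg : g ∉ V) : g⁻¹ ∈ V :=
  (hV g (g_ne hg)).resolve_left hg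

theorem gpow_notin (hV : ∀ d : D, d ≠ 0 → d ∈ V ∨ d⁻¹ ∈ V) (hg : g ∉ V) (k : ℕ) : g ^ (k + 1) ∉ V := by
  intro h
  apply hg
  have : g = g ^ (k + 1) * (g⁻¹) ^ k := by
    rw [pow_succ' g k, mul_assoc, inv_pow, mul_inv_cancel₀ (pow_ne_zero k (g_ne hg)), mul_one]
  rw [this]
  exact V.mul_mem h (V.pow_mem (ginv_mem hV hg) k)

theorem NU_gpow (hV : ∀ d : D, d ≠ 0 → d ∈ V ∨ d⁻¹ ∈ V) (hg : g ∉ V) (k : ℕ) : NU V ((g⁻¹) ^ (k + 1)) := by
  refine ⟨V.pow_mem (ginv_mem hV hg) _, Or.inr ?_⟩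
  rw [inv_pow, inv_inv]
  exact gpow_notin hV hg k

theorem pow_le_mem (hV : ∀ d : D, d ≠ 0 → d ∈ V ∨ d⁻¹ ∈ V) (hg : g ∉ V) {a b : ℕ} (hab : a ≤ b) :
    ∃ v ∈ V, g ^ a = v * g ^ b := by
  refine ⟨(g⁻¹) ^ (b - a), V.pow_mem (ginv_mem hV hg) _, ?_⟩
  rw [inv_pow]
  have : g ^ b = g ^ (b - a) * g ^ a := by rw [← pow_add]; congr 1; omega
  rw [this, ← mul_assoc, inv_mul_cancel₀ (pow_ne_zero _ (g_ne hg)), one_mul]

theorem K_mono (hV : ∀ d : D, d ≠ 0 → d ∈ V ∨ d⁻¹ ∈ V) (hg : g ∉ V) {a b : ℕ} (hab : a ≤ b) :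
    K V (g ^ a) ≤ K V (g ^ b) := by
  intro w hw
  rw [mem_K] at hw ⊢
  obtain ⟨v, hv, rfl⟩ := hw
  obtain ⟨u, hu, h⟩ := pow_le_mem hV hg hab
  exact ⟨v * u, V.mul_mem hv hu, by rw [h, mul_assoc]⟩

end core

section main
variable {D : Type} [DivisionRing D] {V : Subring D} {g : D}

/-- the operator `Z (w₁, w₂) = (0, w₁ g⁻¹)` -/
def Zop (V : Subring D) (gi : V) : W V × W V →ₗ[V] W V × W V :=
  LinearMap.prod 0 ((mulW V gi).comp (LinearMap.fst V _ _))

theorem Zop_apply (gi : V) (x : W V × W V) : Zop V gi x = (0, mulW V gi x.1) := rfl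

/-- the sequence of exponents -/
def mm : ℕ → ℕ
  | 0 => 2
  | n + 1 => 2 * mm n + 2

theorem mm_ge (n : ℕ) : 2 ≤ mm n := by
  cases n with
  | zero => exact le_rfl
  | succ n => unfold mm; omega

theorem mm_succ (n : ℕ) : mm (n + 1) = 2 * mm n + 2 := rfl

theorem mm_mono : Monotone mm := monotone_nat_of_le_succ fun n => by rw [mm_succ]; omega

theorem mm_ge_self (n : ℕ) : n ≤ mm n := by
  induction n with
  | zero => omega
  | succ n ih => rw [mm_succ]; omega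

/-- `N_M = V g^M / V × V g^(2M) / V` -/
def FF (V : Subring D) (g : D) (M : ℕ) : Submodule V (W V × W V) := (K V (g ^ M)).prod (K V (g ^ (2 * M)))

theorem approx (hV : ∀ d : D, d ≠ 0 → d ∈ V ∨ d⁻¹ ∈ V) (hg : g ∉ V)
    (hns : ∀ e : D, e ∉ V → ∀ b : D, ∃ s ∈ V, ∃ r ∈ V, b = s * e * r) (P q : ℕ) :
    ∃ a ∈ V, g ^ (P + 1) * (1 - a) ∈ V ∧ ∃ u ∈ V, g ^ (P + 2 + q + 1) * a = u * g ^ (P + 2) := by
  have hg0 := g_ne hg
  obtain ⟨v, hv, s', hs', hb⟩ := hns g hg (g ^ (P + 2 + q + 1))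
  have hs : NU V ((g⁻¹) ^ (P + 1) * s') := NU_mul V (NU_gpow hV hg P) hs'
  have hj : NU V ((g⁻¹) ^ (q + 1) * v) := NU_mul V (NU_gpow hV hg q) hv
  obtain ⟨h1, h2⟩ := one_add_unit V hV hs
  obtain ⟨h3, h4⟩ := one_add_unit V hV hj
  generalize hsdef : (g⁻¹) ^ (P + 1) * s' = s at *
  generalize hjdef : (g⁻¹) ^ (q + 1) * v = j at *
  have hgs : g ^ (P + 1) * s = s' := by
    rw [← hsdef, ← mul_assoc, inv_pow, mul_inv_cancel₀ (pow_ne_zero _ hg0), one_mul]
  have hXs : g ^ (P + 2) * s = g * s' := by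
    rw [pow_succ', mul_assoc, hgs]
  have hjX : j * (g ^ (P + 2) * s) = g ^ (P + 2) := by
    rw [hXs, ← hjdef]
    have : g⁻¹ ^ (q + 1) * v * (g * s') = g⁻¹ ^ (q + 1) * (v * g * s') := by simp only [mul_assoc]
    rw [this, ← hb, show P + 2 + q + 1 = (q + 1) + (P + 2) by ring, pow_add g (q + 1) (P + 2),
      ← mul_assoc, inv_pow, inv_mul_cancel₀ (pow_ne_zero _ hg0), one_mul]
  have h1a : 1 - (1 + s)⁻¹ = s * (1 + s)⁻¹ := by
    have h5 : (1 + s) * (1 + s)⁻¹ = 1 := mul_inv_cancel₀ h1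
    rw [add_mul, one_mul] at h5
    rw [sub_eq_iff_eq_add, add_comm]; exact h5.symm
  refine ⟨(1 + s)⁻¹, h2, ?_, v * (1 + j)⁻¹, V.mul_mem hv h4, ?_⟩
  · rw [h1a, ← mul_assoc, hgs]
    exact V.mul_mem hs' h2
  · have h6 : (1 + j) * (g ^ (P + 2) * s) = g ^ (P + 2) * (1 + s) := by
      rw [add_mul, one_mul, hjX, mul_add, mul_one, add_comm]
    have h7 : g ^ (P + 2) * s * (1 + s)⁻¹ = (1 + j)⁻¹ * g ^ (P + 2) := by
      have h8 : g ^ (P + 2) * s = (1 + j)⁻¹ * (g ^ (P + 2) * (1 + s)) := by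
        rw [← h6, ← mul_assoc, inv_mul_cancel₀ h3, one_mul]
      rw [h8, mul_assoc, mul_assoc, mul_inv_cancel₀ h1, mul_one]
    rw [hb]
    have : v * g * s' * (1 + s)⁻¹ = v * ((g * s') * (1 + s)⁻¹) := by simp only [mul_assoc]
    rw [this, ← hXs, h7, mul_assoc]

/-- the endomorphisms `r_n` -/
theorem rmaps (hV : ∀ d : D, d ≠ 0 → d ∈ V ∨ d⁻¹ ∈ V) (hg : g ∉ V) (gi : V) (hgi : (gi : D) = g⁻¹)
    (hns : ∀ e : D, e ∉ V → ∀ b : D, ∃ s ∈ V, ∃ r ∈ V, b = s * e * r) (n : ℕ) :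
    ∃ r : W V × W V →ₗ[V] W V × W V, (∀ x, r (Zop V gi x) = Zop V gi (r x)) ∧
      (∀ x ∈ FF V g (mm n), r x = x) ∧ (∀ x ∈ FF V g (mm (n + 2)), r x ∈ FF V g (mm (n + 1))) := by
  have hg0 := g_ne hg
  have hginv := ginv_mem hV hg
  obtain ⟨q, hq⟩ : ∃ q, 2 * mm (n + 2) + 1 = 2 * mm n + 2 + q + 1 := by
    refine ⟨2 * mm (n + 2) - (2 * mm n + 2), ?_⟩
    have h1 : mm (n + 1) = 2 * mm n + 2 := rfl
    have h2 : mm (n + 2) = 2 * mm (n + 1) + 2 := rfl
    omega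
  obtain ⟨a, ha, ha1, u, hu, hau⟩ := approx hV hg hns (2 * mm n) q
  have hkey : ∀ k ≤ 2 * mm n + 1, g ^ k * (1 - a) ∈ V := by
    intro k hk
    obtain ⟨v, hv, h⟩ := pow_le_mem hV hg hk
    rw [h, mul_assoc]
    exact V.mul_mem hv ha1
  have hta : g * a * g⁻¹ ∈ V := by
    have h1 := hkey 1 (by omega)
    rw [pow_one] at h1
    have : g * a * g⁻¹ = 1 - (g * (1 - a)) * g⁻¹ := by
      rw [mul_sub, mul_one, sub_mul, mul_inv_cancel₀ hg0]; abel
    rw [this]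
    exact V.sub_mem V.one_mem (V.mul_mem h1 hginv)
  refine ⟨LinearMap.prodMap (mulW V ⟨a, ha⟩) (mulW V ⟨g * a * g⁻¹, hta⟩), ?_, ?_, ?_⟩
  · rintro ⟨w1, w2⟩
    obtain ⟨d, rfl⟩ := mk_surj V w1
    simp only [Zop_apply, LinearMap.prodMap_apply, map_zero, mulW_mk, hgi]
    congr 2
    rw [← mul_assoc, ← mul_assoc, mul_assoc d, inv_mul_cancel₀ hg0, mul_one]
  · rintro ⟨w1, w2⟩ ⟨h1, h2⟩
    rw [SetLike.mem_coe, mem_K] at h1 h2
    obtain ⟨v1, hv1, h1⟩ := h1
    obtain ⟨v2, hv2, h2⟩ := h2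
    simp only at h1 h2
    subst h1; subst h2
    simp only [LinearMap.prodMap_apply, mulW_mk]
    refine Prod.ext ?_ ?_
    · rw [← sub_eq_zero, ← map_sub, mk_eq_zero]
      have : v1 * g ^ mm n * a - v1 * g ^ mm n = - (v1 * (g ^ mm n * (1 - a))) := by
        noncomm_ring
      rw [this]
      exact V.neg_mem (V.mul_mem hv1 (hkey _ (by omega)))
    · rw [← sub_eq_zero, ← map_sub, mk_eq_zero]
      have : v2 * g ^ (2 * mm n) * (g * a * g⁻¹) - v2 * g ^ (2 * mm n) =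
          - (v2 * (g ^ (2 * mm n + 1) * (1 - a)) * g⁻¹) := by
        have e1 : v2 * (g ^ (2 * mm n + 1) * (1 - a)) * g⁻¹ =
            v2 * g ^ (2 * mm n) * (g * g⁻¹) - v2 * g ^ (2 * mm n) * (g * a * g⁻¹) := by
          rw [pow_succ]
          noncomm_ring
        rw [e1, mul_inv_cancel₀ hg0, mul_one]; abel
      rw [this]
      exact V.neg_mem (V.mul_mem (V.mul_mem hv2 ha1) hginv)
  · rintro ⟨w1, w2⟩ ⟨h1, h2⟩
    rw [SetLike.mem_coe, mem_K] at h1 h2
    obtain ⟨v1, hv1, h1⟩ := h1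
    obtain ⟨v2, hv2, h2⟩ := h2
    simp only at h1 h2
    subst h1; subst h2
    simp only [LinearMap.prodMap_apply, mulW_mk]
    rw [← hq] at hau
    have hmm : 2 * mm n + 2 = mm (n + 1) := rfl
    rw [hmm] at hau
    refine ⟨?_, ?_⟩
    · rw [SetLike.mem_coe, mem_K]
      simp only
      obtain ⟨v, hv, h⟩ := pow_le_mem hV hg (show mm (n + 2) ≤ 2 * mm (n + 2) + 1 by omega)
      refine ⟨v1 * v * u, V.mul_mem (V.mul_mem hv1 hv) hu, ?_⟩
      congr 1
      rw [h, mul_assoc v1, mul_assoc v, hau]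
      simp only [mul_assoc]
    · rw [SetLike.mem_coe, mem_K]
      simp only
      obtain ⟨v, hv, h⟩ := pow_le_mem hV hg (show mm (n + 1) ≤ 2 * mm (n + 1) + 1 by omega)
      refine ⟨v2 * u * v, V.mul_mem (V.mul_mem hv2 hu) hv, ?_⟩
      congr 1
      have e2 : v2 * g ^ (2 * mm (n + 2)) * (g * a * g⁻¹) = v2 * (g ^ (2 * mm (n + 2) + 1) * a) * g⁻¹ := by
        rw [pow_succ]; simp only [mul_assoc]
      rw [e2, hau, h, pow_succ]
      simp only [mul_assoc]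
      rw [mul_inv_cancel₀ hg0, mul_one]

/-- `N_M` is a sum of two uniserial modules -/
theorem decomp (hV : ∀ d : D, d ≠ 0 → d ∈ V ∨ d⁻¹ ∈ V) (hg : g ∉ V) (gi : V) (hgi : (gi : D) = g⁻¹)
    (hns : ∀ e : D, e ∉ V → ∀ b : D, ∃ s ∈ V, ∃ r ∈ V, b = s * e * r) (M : ℕ) (hM : 2 ≤ M) :
    ∃ (KK : Bool → Submodule V (W V)) (zz : Bool → V) (Phi : Bool → (W V →ₗ[V] W V × W V))
      (S : Bool → (W V × W V →ₗ[V] W V)),
      (∀ b, ∀ u ∈ KK b, mulW V (zz b) u ∈ KK b) ∧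
      (∀ b, ∀ u ∈ KK b, Phi b (mulW V (zz b) u) = Zop V gi (Phi b u)) ∧
      (∀ b, ∀ x ∈ FF V g M, S b x ∈ KK b) ∧
      (∀ b, ∀ x ∈ FF V g M, S b (Zop V gi x) = mulW V (zz b) (S b x)) ∧
      ∀ x, Phi true (S true x) + Phi false (S false x) = x := by
  have hg0 := g_ne hg
  have hginv := ginv_mem hV hg
  obtain ⟨l, rfl⟩ : ∃ l, M = l + 2 := ⟨M - 2, by omega⟩
  obtain ⟨s, hs, ρ, hρ, hb⟩ := hns g hg (g ^ (2 * (l + 2)))
  have hρ0 : ρ ≠ 0 := by
    rintro rfl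
    rw [mul_zero] at hb
    exact pow_ne_zero _ hg0 hb
  -- t = g^{-(l+1)}
  have ht : NU V ((g⁻¹) ^ (l + 1)) := NU_gpow hV hg l
  have htρ : NU V (-((g⁻¹) ^ (l + 1) * ρ)) := NU_neg V (NU_mul V ht hρ)
  obtain ⟨hk1, hk2⟩ := one_add_unit V hV htρ
  -- E = v3⁻¹ g^{2M}
  have hEE : g ^ (2 * (l + 2)) = (s * (g⁻¹) ^ (l + 1)) * (g ^ (l + 2) * ρ) := by
    rw [hb]
    have : g = (g⁻¹) ^ (l + 1) * g ^ (l + 2) := by
      rw [pow_succ' g (l + 1), ← mul_assoc]
      have : g⁻¹ ^ (l + 1) * g * g ^ (l + 1) = g⁻¹ ^ (l + 1) * (g * g ^ (l + 1)) := by rw [mul_assoc]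
      rw [this, ← pow_succ', pow_succ g (l + 1), ← mul_assoc, inv_pow,
        inv_mul_cancel₀ (pow_ne_zero _ hg0), one_mul]
    conv_lhs => rw [this]
    simp only [mul_assoc]
  have hj : NU V (-(g⁻¹ * (s * (g⁻¹) ^ (l + 1)))) := by
    have h1 : NU V (g⁻¹) := by simpa using NU_gpow hV hg 0
    exact NU_neg V (NU_mul V h1 (V.mul_mem hs ht.1))
  obtain ⟨hj1, hj2⟩ := one_add_unit V hV hj
  set t : V := ⟨(g⁻¹) ^ (l + 1), ht.1⟩ with htdef
  set ρ' : V := ⟨ρ, hρ⟩ with hρdef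
  set κ : V := ⟨(1 + -((g⁻¹) ^ (l + 1) * ρ))⁻¹, hk2⟩ with hκdef
  have hκ : (κ : D) * (1 - (g⁻¹) ^ (l + 1) * ρ) = 1 := by
    rw [hκdef]; simp only; rw [sub_eq_add_neg]; exact inv_mul_cancel₀ hk1
  have hκ' : (1 - (g⁻¹) ^ (l + 1) * ρ) * (κ : D) = 1 := by
    rw [hκdef]; simp only; rw [sub_eq_add_neg]; exact mul_inv_cancel₀ hk1
  -- the maps
  let SG : W V × W V →ₗ[V] W V :=
    (mulW V κ).comp (LinearMap.snd V _ _ - (mulW V ρ').comp (LinearMap.fst V _ _))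
  let SH : W V × W V →ₗ[V] W V := LinearMap.fst V _ _ - (mulW V t).comp SG
  let PG : W V →ₗ[V] W V × W V := LinearMap.prod (mulW V t) LinearMap.id
  let PH : W V →ₗ[V] W V × W V := LinearMap.prod LinearMap.id (mulW V ρ')
  have hSG : ∀ a b : D, SG (mk V a, mk V b) = mk V ((b - a * ρ) * κ) := by
    intro a b
    simp only [SG, LinearMap.comp_apply, LinearMap.sub_apply, LinearMap.snd_apply, LinearMap.fst_apply,
      mulW_mk, ← map_sub, hρdef]
  have hSH : ∀ a b : D, SH (mk V a, mk V b) = mk V (a - (b - a * ρ) * κ * (g⁻¹) ^ (l + 1)) := by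
    intro a b
    simp only [SH, LinearMap.comp_apply, LinearMap.sub_apply, LinearMap.fst_apply, hSG, mulW_mk,
      ← map_sub, htdef]
  have hPG : ∀ a : D, PG (mk V a) = (mk V (a * (g⁻¹) ^ (l + 1)), mk V a) := by
    intro a
    change (mulW V t (mk V a), mk V a) = _
    rw [mulW_mk]
  have hPH : ∀ a : D, PH (mk V a) = (mk V a, mk V (a * ρ)) := by
    intro a
    change (mk V a, mulW V ρ' (mk V a)) = _
    rw [mulW_mk]
  have hsum : ∀ x, PG (SG x) + PH (SH x) = x := by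
    rintro ⟨w1, w2⟩
    obtain ⟨a, rfl⟩ := mk_surj V w1
    obtain ⟨b, rfl⟩ := mk_surj V w2
    rw [hSG, hSH, hPG, hPH, Prod.mk_add_mk, ← map_add, ← map_add]
    refine Prod.ext ?_ ?_
    · simp only
      congr 1; abel
    · simp only
      congr 1
      have e1 : (b - a * ρ) * κ + (a - (b - a * ρ) * κ * (g⁻¹) ^ (l + 1)) * ρ =
          (b - a * ρ) * ((κ : D) * (1 - (g⁻¹) ^ (l + 1) * ρ)) + a * ρ := by noncomm_ring
      rw [e1, hκ, mul_one]; abel
  have hinv1 : ∀ u w, SG (PG u + PH w) = u := by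
    intro u w
    obtain ⟨u, rfl⟩ := mk_surj V u
    obtain ⟨w, rfl⟩ := mk_surj V w
    rw [hPG, hPH, Prod.mk_add_mk, ← map_add, ← map_add, hSG]
    congr 1
    have e1 : (u + w * ρ - (u * (g⁻¹) ^ (l + 1) + w) * ρ) * (κ : D) =
        u * ((1 - (g⁻¹) ^ (l + 1) * ρ) * (κ : D)) := by noncomm_ring
    rw [e1, hκ', mul_one]
  have hinv2 : ∀ u w, SH (PG u + PH w) = w := by
    intro u w
    have h1 := hinv1 u w
    change (mulW V t u + w) - mulW V t (SG (PG u + PH w)) = w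
    rw [h1]; abel
  have hzG : (g⁻¹) ^ (l + 2) = (g⁻¹) ^ (l + 1) * g⁻¹ := pow_succ _ _
  have hPGZ : ∀ u ∈ K V (g ^ (2 * l + 3)), PG (mulW V (⟨(g⁻¹) ^ (l + 2), V.pow_mem hginv _⟩ : V) u) =
      Zop V gi (PG u) := by
    intro u hu
    rw [mem_K] at hu
    obtain ⟨v, hv, rfl⟩ := hu
    rw [mulW_mk, hPG, hPG, Zop_apply]
    refine Prod.ext ?_ ?_
    · simp only
      rw [mk_eq_zero]
      have : v * g ^ (2 * l + 3) * g⁻¹ ^ (l + 2) * g⁻¹ ^ (l + 1) = v := by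
        rw [mul_assoc _ (g⁻¹ ^ (l + 2)), ← pow_add, show l + 2 + (l + 1) = 2 * l + 3 by ring, inv_pow,
          mul_assoc, mul_inv_cancel₀ (pow_ne_zero _ hg0), mul_one]
      rw [this]; exact hv
    · simp only [mulW_mk, hgi]
      rw [hzG]; simp only [mul_assoc]
  have hPHZ : ∀ u ∈ K V (s * g), PH (mulW V 0 u) = Zop V gi (PH u) := by
    intro u hu
    rw [mem_K] at hu
    obtain ⟨v, hv, rfl⟩ := hu
    rw [mulW_zero, LinearMap.zero_apply, map_zero, hPH, Zop_apply]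
    simp only [mulW_mk, hgi]
    have : v * (s * g) * g⁻¹ = v * s := by
      rw [mul_assoc, mul_assoc, mul_inv_cancel₀ hg0, mul_one]
    rw [this, (mk_eq_zero V).mpr (V.mul_mem hv hs)]; rfl
  have hu' : ∀ v1 ∈ V, ∀ v2 ∈ V, ∃ v5 ∈ V, (v2 * g ^ (2 * (l + 2)) - v1 * g ^ (l + 2) * ρ) * (κ : D) =
      v5 * g ^ (2 * l + 3) := by
    intro v1 hv1 v2 hv2
    -- F = g^(2l+3) = -j E with j as above
    have hF : g ^ (2 * l + 3) = g⁻¹ * (s * (g⁻¹) ^ (l + 1)) * (g ^ (l + 2) * ρ) := by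
      rw [mul_assoc, ← hEE, show 2 * (l + 2) = (2 * l + 3) + 1 by ring, pow_succ' g (2 * l + 3),
        ← mul_assoc, inv_mul_cancel₀ hg0, one_mul]
    have hFt : g ^ (2 * l + 3) * ((g⁻¹) ^ (l + 1) * ρ) = g ^ (l + 2) * ρ := by
      rw [← mul_assoc]
      congr 1
      rw [show 2 * l + 3 = (l + 2) + (l + 1) by ring, pow_add, mul_assoc, inv_pow,
        mul_inv_cancel₀ (pow_ne_zero _ hg0), mul_one]
    have hEF : (1 + -(g⁻¹ * (s * (g⁻¹) ^ (l + 1)))) * (g ^ (l + 2) * ρ) =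
        - (g ^ (2 * l + 3) * (1 - (g⁻¹) ^ (l + 1) * ρ)) := by
      rw [add_mul, one_mul, neg_mul, ← hF, mul_sub, mul_one, hFt]; abel
    have hEκ : g ^ (l + 2) * ρ * (κ : D) =
        - ((1 + -(g⁻¹ * (s * (g⁻¹) ^ (l + 1))))⁻¹) * g ^ (2 * l + 3) := by
      have h1 : g ^ (l + 2) * ρ = (1 + -(g⁻¹ * (s * (g⁻¹) ^ (l + 1))))⁻¹ *
          (- (g ^ (2 * l + 3) * (1 - (g⁻¹) ^ (l + 1) * ρ))) := by
        rw [← hEF, ← mul_assoc, inv_mul_cancel₀ hj1, one_mul]
      rw [h1]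
      have e1 : (1 + -(g⁻¹ * (s * (g⁻¹) ^ (l + 1))))⁻¹ *
          (- (g ^ (2 * l + 3) * (1 - (g⁻¹) ^ (l + 1) * ρ))) * (κ : D) =
          - ((1 + -(g⁻¹ * (s * (g⁻¹) ^ (l + 1))))⁻¹ * g ^ (2 * l + 3) *
            ((1 - (g⁻¹) ^ (l + 1) * ρ) * (κ : D))) := by
        simp only [mul_assoc, neg_mul, mul_neg]
      rw [e1, hκ', mul_one, neg_mul]
    refine ⟨(v2 * (s * (g⁻¹) ^ (l + 1)) - v1) * (- ((1 + -(g⁻¹ * (s * (g⁻¹) ^ (l + 1))))⁻¹)), ?_, ?_⟩
    · exact V.mul_mem (V.sub_mem (V.mul_mem hv2 (V.mul_mem hs ht.1)) hv1) (V.neg_mem hj2)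
    · have e2 : (v2 * g ^ (2 * (l + 2)) - v1 * g ^ (l + 2) * ρ) =
          (v2 * (s * (g⁻¹) ^ (l + 1)) - v1) * (g ^ (l + 2) * ρ) := by
        rw [hEE, sub_mul]; simp only [mul_assoc]
      rw [e2, mul_assoc, hEκ, mul_assoc]
  have hSGm : ∀ x ∈ FF V g (l + 2), SG x ∈ K V (g ^ (2 * l + 3)) := by
    rintro ⟨w1, w2⟩ ⟨h1, h2⟩
    rw [SetLike.mem_coe, mem_K] at h1 h2
    obtain ⟨v1, hv1, h1⟩ := h1
    obtain ⟨v2, hv2, h2⟩ := h2
    simp only at h1 h2
    subst h1; subst h2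
    rw [hSG, mem_K]
    obtain ⟨v5, hv5, h5⟩ := hu' v1 hv1 v2 hv2
    exact ⟨v5, hv5, by rw [h5]⟩
  have hSHm : ∀ x ∈ FF V g (l + 2), SH x ∈ K V (s * g) := by
    rintro ⟨w1, w2⟩ ⟨h1, h2⟩
    rw [SetLike.mem_coe, mem_K] at h1 h2
    obtain ⟨v1, hv1, h1⟩ := h1
    obtain ⟨v2, hv2, h2⟩ := h2
    simp only at h1 h2
    subst h1; subst h2
    rw [hSH, mem_K]
    obtain ⟨v5, hv5, h5⟩ := hu' v1 hv1 v2 hv2
    rw [h5]
    refine ⟨v2 - v5 * g⁻¹, V.sub_mem hv2 (V.mul_mem hv5 hginv), ?_⟩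
    congr 1
    apply mul_right_cancel₀ hρ0
    have e1 : (v1 * g ^ (l + 2) - v5 * g ^ (2 * l + 3) * g⁻¹ ^ (l + 1)) * ρ =
        v2 * g ^ (2 * (l + 2)) - v5 * g ^ (2 * l + 3) := by
      have e2 : v5 * g ^ (2 * l + 3) * (1 - (g⁻¹) ^ (l + 1) * ρ) =
          v2 * g ^ (2 * (l + 2)) - v1 * g ^ (l + 2) * ρ := by
        rw [← h5, mul_assoc, hκ, mul_one]
      have e3 : (v1 * g ^ (l + 2) - v5 * g ^ (2 * l + 3) * g⁻¹ ^ (l + 1)) * ρ =
          v5 * g ^ (2 * l + 3) * (1 - (g⁻¹) ^ (l + 1) * ρ) - v5 * g ^ (2 * l + 3) + v1 * g ^ (l + 2) * ρ := by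
        noncomm_ring
      rw [e3, e2]; abel
    rw [e1]
    have e4 : (v2 - v5 * g⁻¹) * (s * g) * ρ = (v2 - v5 * g⁻¹) * (s * g * ρ) := by simp only [mul_assoc]
    rw [e4, ← hb, sub_mul]
    congr 1
    rw [show 2 * (l + 2) = (2 * l + 3) + 1 by ring, pow_succ' g (2 * l + 3), mul_assoc, ← mul_assoc g⁻¹,
      inv_mul_cancel₀ hg0, one_mul]
  refine ⟨fun b => match b with | true => K V (g ^ (2 * l + 3)) | false => K V (s * g),
    fun b => match b with | true => ⟨(g⁻¹) ^ (l + 2), V.pow_mem hginv _⟩ | false => 0,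
    fun b => match b with | true => PG | false => PH,
    fun b => match b with | true => SG | false => SH, ?_, ?_, ?_, ?_, ?_⟩
  · rintro (_ | _) u hu
    · simp only [mulW_zero, LinearMap.zero_apply]
      exact Submodule.zero_mem _
    · simp only at hu ⊢
      rw [mem_K] at hu ⊢
      obtain ⟨v, hv, rfl⟩ := hu
      obtain ⟨v', hv', h'⟩ := pow_le_mem hV hg (show l + 1 ≤ 2 * l + 3 by omega)
      refine ⟨v * v', V.mul_mem hv hv', ?_⟩
      rw [mulW_mk, mul_assoc v v', ← h']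
      congr 1
      simp only
      rw [show 2 * l + 3 = (l + 1) + (l + 2) by ring, pow_add, inv_pow, mul_assoc, mul_assoc,
        mul_inv_cancel₀ (pow_ne_zero _ hg0), mul_one]
  · rintro (_ | _) u hu
    · exact hPHZ u hu
    · exact hPGZ u hu
  · rintro (_ | _) x hx
    · exact hSHm x hx
    · exact hSGm x hx
  · rintro (_ | _) x hx
    · have h1 : Zop V gi x = PG (mulW V (⟨(g⁻¹) ^ (l + 2), V.pow_mem hginv _⟩ : V) (SG x)) + PH (mulW V 0 (SH x)) := by
        rw [hPGZ _ (hSGm x hx), hPHZ _ (hSHm x hx), ← map_add, hsum]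
      simp only
      rw [h1, hinv2]
    · have h1 : Zop V gi x = PG (mulW V (⟨(g⁻¹) ^ (l + 2), V.pow_mem hginv _⟩ : V) (SG x)) + PH (mulW V 0 (SH x)) := by
        rw [hPGZ _ (hSGm x hx), hPHZ _ (hSHm x hx), ← map_add, hsum]
      simp only
      rw [h1, hinv1]
  · exact hsum

end main

section final
variable {D : Type} [DivisionRing D] {V : Subring D} {g : D}

theorem mulW_surj (gi : V) (hgi : (gi : D) = g⁻¹) (hg0 : g ≠ 0) (w : W V) : ∃ u, mulW V gi u = w := by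
  obtain ⟨d, rfl⟩ := mk_surj V w
  exact ⟨mk V (d * g), by rw [mulW_mk, hgi, mul_assoc, mul_inv_cancel₀ hg0, mul_one]⟩

theorem mk_g_ne (hg : g ∉ V) : mk V g ≠ 0 := fun h => hg ((mk_eq_zero V).mp h)

theorem indec_aux (hV : ∀ d : D, d ≠ 0 → d ∈ V ∨ d⁻¹ ∈ V) (hg : g ∉ V) (gi : V) (hgi : (gi : D) = g⁻¹)
    (A B : Submodule V (W V × W V)) (hAZ : A ≤ A.comap (Zop V gi))
    (hsup : A ⊔ B = ⊤) (hinf : A ⊓ B = ⊥) (hB : ∀ w, ((0 : W V), w) ∈ B) : A = ⊥ := by
  have hA0 : ∀ x ∈ A, mulW V gi x.1 = 0 := by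
    intro x hx
    have h1 : Zop V gi x ∈ A := hAZ hx
    have h2 : Zop V gi x ∈ A ⊓ B := ⟨h1, by rw [Zop_apply]; exact hB _⟩
    rw [hinf, Submodule.mem_bot, Zop_apply] at h2
    exact (Prod.mk.inj h2).2
  have hA1 : ¬ (⊤ : Submodule V (W V)) ≤ A.map (LinearMap.fst V (W V) (W V)) := by
    intro h
    obtain ⟨u, hu⟩ := mulW_surj gi hgi (g_ne hg) (mk V g)
    obtain ⟨x, hx, hx1⟩ := h (show u ∈ ⊤ from trivial)
    have h2 := hA0 x hx
    have h3 : x.1 = u := hx1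
    rw [h3, hu] at h2
    exact mk_g_ne hg h2
  have htop : A.map (LinearMap.fst V (W V) (W V)) ⊔ B.map (LinearMap.fst V (W V) (W V)) = ⊤ := by
    rw [← Submodule.map_sup, hsup, Submodule.map_top, LinearMap.range_eq_top]
    exact LinearMap.fst_surjective
  have hB1 : B.map (LinearMap.fst V (W V) (W V)) = ⊤ := by
    rcases chainW V hV (A.map (LinearMap.fst V (W V) (W V))) (B.map (LinearMap.fst V (W V) (W V))) with h | h
    · rwa [sup_eq_right.mpr h] at htop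
    · rw [sup_eq_left.mpr h] at htop
      exact absurd (le_of_eq htop.symm) hA1
  have hBtop : B = ⊤ := by
    rw [eq_top_iff]
    rintro ⟨x, y⟩ _
    obtain ⟨b, hb, hb1⟩ := (hB1 ▸ trivial : x ∈ B.map (LinearMap.fst V (W V) (W V)))
    have h3 : b.1 = x := hb1
    have : ((x, y) : W V × W V) = b + (0, y - b.2) := by
      refine Prod.ext ?_ ?_
      · simp [h3]
      · simp
    rw [this]
    exact B.add_mem hb (hB _)
  rw [hBtop, inf_top_eq] at hinf
  exact hinf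

theorem indec (hV : ∀ d : D, d ≠ 0 → d ∈ V ∨ d⁻¹ ∈ V) (hg : g ∉ V) (gi : V) (hgi : (gi : D) = g⁻¹)
    (A B : Submodule V (W V × W V)) (hAZ : A ≤ A.comap (Zop V gi)) (hBZ : B ≤ B.comap (Zop V gi))
    (hsup : A ⊔ B = ⊤) (hinf : A ⊓ B = ⊥) : A = ⊥ ∨ B = ⊥ := by
  have htop : A.comap (LinearMap.inr V (W V) (W V)) ⊔ B.comap (LinearMap.inr V (W V) (W V)) = ⊤ := by
    rw [eq_top_iff]
    intro w _
    obtain ⟨u, rfl⟩ := mulW_surj gi hgi (g_ne hg) w
    have h1 : ((u, 0) : W V × W V) ∈ A ⊔ B := by rw [hsup]; trivial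
    rw [Submodule.mem_sup] at h1
    obtain ⟨a, ha, b, hb, hab⟩ := h1
    have h2 : mulW V gi u = mulW V gi a.1 + mulW V gi b.1 := by
      rw [← map_add]
      congr 1
      exact (congrArg Prod.fst hab).symm
    rw [h2]
    exact Submodule.add_mem_sup (hAZ ha) (hBZ hb)
  rcases chainW V hV (A.comap (LinearMap.inr V (W V) (W V))) (B.comap (LinearMap.inr V (W V) (W V))) with h | h
  · left
    rw [sup_eq_right.mpr h] at htop
    apply indec_aux hV hg gi hgi A B hAZ hsup hinf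
    intro w
    have : w ∈ B.comap (LinearMap.inr V (W V) (W V)) := by rw [htop]; trivial
    exact this
  · right
    rw [sup_eq_left.mpr h] at htop
    apply indec_aux hV hg gi hgi B A hBZ (by rw [sup_comm]; exact hsup) (by rw [inf_comm]; exact hinf)
    intro w
    have : w ∈ A.comap (LinearMap.inr V (W V) (W V)) := by rw [htop]; trivial
    exact this

theorem mainThm (hV : ∀ d : D, d ≠ 0 → d ∈ V ∨ d⁻¹ ∈ V) (hg : g ∉ V)
    (hcof : ∀ d : D, ∃ n : ℕ, d * (g⁻¹) ^ n ∈ V)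
    (hns : ∀ e : D, e ∉ V → ∀ b : D, ∃ s ∈ V, ∃ r ∈ V, b = s * e * r) :
    ¬ (∀ (R : Type) [Ring R] (M : Type) [AddCommGroup M] [Module R M],
      (∃ (ι : Type) (U : ι → Submodule R M),
          iSupIndep U ∧ (⨆ i, U i) = ⊤ ∧
          ∀ i, ∀ A B : Submodule R M, A ≤ U i → B ≤ U i → A ≤ B ∨ B ≤ A) →
      ∀ N : Submodule R M,
        (∃ N' : Submodule R M, IsCompl N N') →
        N ≠ ⊥ →
        (∀ A B : Submodule R M, A ⊔ B = N → A ⊓ B = ⊥ → A = ⊥ ∨ B = ⊥) →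
        ∀ A B : Submodule R M, A ≤ N → B ≤ N → A ≤ B ∨ B ≤ A) := by
  classical
  have hg0 := g_ne hg
  set gi : V := ⟨g⁻¹, ginv_mem hV hg⟩ with hgidef
  have hgi : (gi : D) = g⁻¹ := rfl
  -- filtration
  have hF : Monotone fun n => FF V g (mm n) := by
    intro a b hab
    exact Submodule.prod_mono (K_mono hV hg (mm_mono hab))
      (K_mono hV hg (by have := mm_mono hab; omega))
  have hU : ∀ x : W V × W V, ∃ n, x ∈ FF V g (mm n) := by
    have hmem : ∀ (d : D) (n k : ℕ), d * (g⁻¹) ^ n ∈ V → n ≤ k → mk V d ∈ K V (g ^ k) := by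
      intro d n k h hk
      apply K_mono hV hg hk
      rw [mem_K]
      refine ⟨d * (g⁻¹) ^ n, h, ?_⟩
      rw [inv_pow, mul_assoc, inv_mul_cancel₀ (pow_ne_zero _ hg0), mul_one]
    rintro ⟨w1, w2⟩
    obtain ⟨a, rfl⟩ := mk_surj V w1
    obtain ⟨b, rfl⟩ := mk_surj V w2
    obtain ⟨n1, h1⟩ := hcof a
    obtain ⟨n2, h2⟩ := hcof b
    refine ⟨max n1 n2, ?_, ?_⟩
    · exact hmem a n1 _ h1 (le_trans (le_max_left n1 n2) (mm_ge_self _))
    · exact hmem b n2 _ h2 (by have := mm_ge_self (max n1 n2); have := le_max_right n1 n2; omega)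
  choose r hrZ hrid hrmem using rmaps hV hg gi hgi hns
  obtain ⟨π, hπZ, hπF, hπfin, hπsum⟩ := splitting (Zop V gi) (fun n => FF V g (mm n)) hF hU r hrZ hrid hrmem
  choose KK zz Phi S hst hPhiZ hSm hSZ hSsum using
    fun n => decomp hV hg gi hgi hns (mm (n + 1)) (mm_ge (n + 1))
  refine assembly (Zop V gi) (ℕ × Bool) (fun i => ↥(KK i.1 i.2))
    (fun i => (mulW V (zz i.1 i.2)).restrict (fun u hu => hst i.1 i.2 u hu))
    (fun i => (Phi i.1 i.2).comp (KK i.1 i.2).subtype)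
    (fun i => LinearMap.codRestrict (KK i.1 i.2) ((S i.1 i.2).comp (π i.1))
      (fun x => hSm i.1 i.2 _ (hπF i.1 x))) ?_ ?_ ?_ ?_ ?_ ?_
    ((K V g).prod ⊥) ((⊥ : Submodule V (W V)).prod ⊤) ?_ ?_ ?_ ?_
  · rintro ⟨n, b⟩ ⟨x, hx⟩
    exact hPhiZ n b x hx
  · rintro ⟨n, b⟩ x
    apply Subtype.ext
    change S n b (π n (Zop V gi x)) = mulW V (zz n b) (S n b (π n x))
    rw [hπZ, hSZ n b _ (hπF n x)]
  · intro x
    obtain ⟨k, hk⟩ := hπfin x
    refine ⟨Finset.range k ×ˢ Finset.univ, ?_⟩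
    rintro ⟨n, b⟩ hn
    apply Subtype.ext
    change S n b (π n x) = 0
    rw [hk n (by simpa using hn), map_zero]
  · intro x s hs
    obtain ⟨k, hk⟩ := hπfin x
    have hval : ∀ i : ℕ × Bool, (Phi i.1 i.2).comp (KK i.1 i.2).subtype
        (LinearMap.codRestrict (KK i.1 i.2) ((S i.1 i.2).comp (π i.1))
          (fun x => hSm i.1 i.2 _ (hπF i.1 x)) x) = Phi i.1 i.2 (S i.1 i.2 (π i.1 x)) := fun i => rfl
    simp only [hval]
    have h0 : ∀ i : ℕ × Bool, i ∉ s → S i.1 i.2 (π i.1 x) = 0 := by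
      intro i hi
      have := hs i hi
      exact congrArg Subtype.val this
    have e1 : ∑ i ∈ s, Phi i.1 i.2 (S i.1 i.2 (π i.1 x)) =
        ∑ i ∈ s ∪ Finset.range k ×ˢ Finset.univ, Phi i.1 i.2 (S i.1 i.2 (π i.1 x)) := by
      apply Finset.sum_subset Finset.subset_union_left
      intro i _ hi
      rw [h0 i hi, map_zero]
    have e2 : ∑ i ∈ Finset.range k ×ˢ (Finset.univ : Finset Bool), Phi i.1 i.2 (S i.1 i.2 (π i.1 x)) =
        ∑ i ∈ s ∪ Finset.range k ×ˢ Finset.univ, Phi i.1 i.2 (S i.1 i.2 (π i.1 x)) := by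
      apply Finset.sum_subset Finset.subset_union_right
      intro i _ hi
      rw [hk i.1 (by simpa using hi), map_zero, map_zero]
    rw [e1, ← e2, Finset.sum_product]
    simp only [Fintype.sum_bool]
    calc ∑ n ∈ Finset.range k, (Phi n true (S n true (π n x)) + Phi n false (S n false (π n x)))
        = ∑ n ∈ Finset.range k, π n x := Finset.sum_congr rfl fun n _ => hSsum n _
      _ = x := hπsum x k hk
  · rintro ⟨n, b⟩ A B
    rcases chainW V hV (A.map (KK n b).subtype) (B.map (KK n b).subtype) with h | h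
    · left
      exact (Submodule.map_le_map_iff_of_injective (KK n b).injective_subtype A B).mp h
    · right
      exact (Submodule.map_le_map_iff_of_injective (KK n b).injective_subtype B A).mp h
  · exact fun A B hA hB h1 h2 => indec hV hg gi hgi A B hA hB h1 h2
  · rintro ⟨x, y⟩ ⟨hx, hy⟩
    rw [SetLike.mem_coe, mem_K] at hx
    obtain ⟨v, hv, hx⟩ := hx
    simp only at hx
    subst hx
    rw [Submodule.mem_comap, Zop_apply]
    simp only [mulW_mk, hgi]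
    rw [mul_assoc, mul_inv_cancel₀ hg0, mul_one, (mk_eq_zero V).mpr hv]
    exact Submodule.zero_mem _
  · rintro ⟨x, y⟩ ⟨hx, hy⟩
    have hx0 : x = 0 := hx
    rw [Submodule.mem_comap, Zop_apply]
    simp only [hx0, map_zero]
    exact Submodule.zero_mem _
  · intro h
    have h1 : ((mk V g, 0) : W V × W V) ∈ (K V g).prod (⊥ : Submodule V (W V)) := by
      refine ⟨?_, rfl⟩
      rw [SetLike.mem_coe, mem_K]
      exact ⟨1, V.one_mem, by simp⟩
    have h2 := (h h1).1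
    exact mk_g_ne hg h2
  · intro h
    have h1 : ((0, mk V g) : W V × W V) ∈ (⊥ : Submodule V (W V)).prod (⊤ : Submodule V (W V)) :=
      ⟨rfl, trivial⟩
    have h2 := (h h1).2
    exact mk_g_ne hg h2

end final

end Pool.Agent.Helper896.Facchini
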