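import Mathlib
set_option autoImplicit false
namespace Pool.Agent.Helper896.FacchiniSkew
open scoped NNReal

/-- a ring of skew polynomials `∑ a_i t^i` with `t a = a ^ 2 t`, given through its coefficients -/
structure Mdl (F A : Type) [Field F] [Ring A] (co : A → ℕ → F) : Prop where
  ext : ∀ a b, (∀ i, co a i = co b i) → a = b
  add : ∀ a b i, co (a + b) i = co a i + co b i
  one : ∀ i, co 1 i = if i = 0 then 1 else 0
  fin : ∀ a, ∃ n, ∀ i, n ≤ i → co a i = 0
  mul : ∀ a b n, co (a * b) n = ∑ p ∈ Finset.HasAntidiagonal.antidiagonal n, co a p.1 * co b p.2 ^ (2 ^ p.1)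
  mono : ∀ n x, ∃ m, ∀ i, co m i = if i = n then x else 0

theorem exists_mdl (F : Type) [Field F] [CharP F 2] :
    ∃ (A : Type) (_ : Ring A) (co : A → ℕ → F), Mdl F A co := by
  haveI : Fact (Nat.Prime 2) := ⟨Nat.prime_two⟩
  letI : MulSemiringAction (Multiplicative ℕ) F :=
    { smul := fun n x => x ^ (2 ^ (Multiplicative.toAdd n))
      one_smul := by
        intro x
        show x ^ (2 ^ (Multiplicative.toAdd (1 : Multiplicative ℕ))) = x
        rw [toAdd_one, pow_zero, pow_one]
      mul_smul := by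
        intro a b x
        show x ^ (2 ^ (Multiplicative.toAdd (a * b))) =
          (x ^ (2 ^ (Multiplicative.toAdd b))) ^ (2 ^ (Multiplicative.toAdd a))
        rw [toAdd_mul, ← pow_mul, ← pow_add, add_comm]
      smul_zero := by
        intro a
        show (0 : F) ^ (2 ^ (Multiplicative.toAdd a)) = 0
        exact zero_pow (by positivity)
      smul_add := by
        intro a x y
        show (x + y) ^ (2 ^ (Multiplicative.toAdd a)) =
          x ^ (2 ^ (Multiplicative.toAdd a)) + y ^ (2 ^ (Multiplicative.toAdd a))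
        exact add_pow_char_pow x y 2 _
      smul_one := by
        intro a
        show (1 : F) ^ (2 ^ (Multiplicative.toAdd a)) = 1
        exact one_pow _
      smul_mul := by
        intro a x y
        show (x * y) ^ (2 ^ (Multiplicative.toAdd a)) =
          x ^ (2 ^ (Multiplicative.toAdd a)) * y ^ (2 ^ (Multiplicative.toAdd a))
        exact mul_pow _ _ _ }
  refine ⟨SkewMonoidAlgebra F (Multiplicative ℕ), inferInstance,
    fun a i => a.coeff (Multiplicative.ofAdd i), ?_⟩
  constructor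
  · intro a b h
    apply SkewMonoidAlgebra.ext
    intro n
    exact h (Multiplicative.toAdd n)
  · intro a b i
    rw [SkewMonoidAlgebra.coeff_add]; rfl
  · intro i
    rw [SkewMonoidAlgebra.coeff_one, Finsupp.single_apply]
    refine if_congr ?_ rfl rfl
    constructor
    · intro h
      exact (Multiplicative.ofAdd.injective (h.symm : Multiplicative.ofAdd i = Multiplicative.ofAdd 0))
    · intro h; rw [h]; rfl
  · intro a
    obtain ⟨n, hn⟩ := (a.coeff.support.image (fun m : Multiplicative ℕ => Multiplicative.toAdd m)).exists_le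
    refine ⟨n + 1, fun i hi => ?_⟩
    by_contra hne
    have h1 : Multiplicative.ofAdd i ∈ a.coeff.support := Finsupp.mem_support_iff.2 hne
    have h2 := hn i (Finset.mem_image.2 ⟨_, h1, rfl⟩)
    omega
  · intro a b n
    rw [SkewMonoidAlgebra.coeff_mul_antidiagonal_of_finset a b (Multiplicative.ofAdd n)
      ((Finset.HasAntidiagonal.antidiagonal n).map ⟨fun p => (Multiplicative.ofAdd p.1, Multiplicative.ofAdd p.2), by
        intro p q h
        have h1 := congrArg Prod.fst h
        have h2 := congrArg Prod.snd h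
        exact Prod.ext (Multiplicative.ofAdd.injective h1) (Multiplicative.ofAdd.injective h2)⟩)]
    · rw [Finset.sum_map]
      rfl
    · intro p
      rw [Finset.mem_map]
      constructor
      · rintro ⟨q, hq, rfl⟩
        rw [Finset.HasAntidiagonal.mem_antidiagonal] at hq
        rw [← hq]
        rfl
      · intro h
        refine ⟨(Multiplicative.toAdd p.1, Multiplicative.toAdd p.2), ?_, rfl⟩
        rw [Finset.HasAntidiagonal.mem_antidiagonal]
        exact h
  · intro n x
    refine ⟨SkewMonoidAlgebra.single (Multiplicative.ofAdd n) x, fun i => ?_⟩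
    rw [SkewMonoidAlgebra.coeff_single, Finsupp.single_apply]
    refine if_congr ?_ rfl rfl
    constructor
    · intro h
      exact (Multiplicative.ofAdd.injective h).symm
    · intro h; rw [h]

theorem exists_val : ∃ (F : Type) (_ : Field F) (_ : CharP F 2) (v : Valuation F ℝ≥0) (x : F),
    1 < v x := by
  haveI : Fact (Nat.Prime 2) := ⟨Nat.prime_two⟩
  have he : (1 : ℝ≥0) < 2 := one_lt_two
  classical
  refine ⟨RatFunc (ZMod 2), inferInstance, ?_,
    (RatFunc.inftyValuation (ZMod 2)).map (WithZeroMulInt.toNNReal (ne_zero_of_lt he))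
      (WithZeroMulInt.toNNReal_strictMono he).monotone, RatFunc.X, ?_⟩
  · exact charP_of_injective_algebraMap (algebraMap (ZMod 2) (RatFunc (ZMod 2))).injective 2
  · show 1 < WithZeroMulInt.toNNReal (ne_zero_of_lt he) (RatFunc.inftyValuation (ZMod 2) RatFunc.X)
    rw [RatFunc.inftyValuation.X]
    have h1 := WithZeroMulInt.toNNReal_strictMono he
      (show (1 : WithZero (Multiplicative ℤ)) < WithZero.exp 1 from by
        rw [← WithZero.exp_zero]
        exact WithZero.exp_lt_exp.2 one_pos)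
    rwa [map_one] at h1

section

variable {F A : Type} [Field F] [Ring A] {co : A → ℕ → F} (h : Mdl F A co)
  (v : Valuation F ℝ≥0) {D : A → ℕ} (hD : ∀ a i, D a ≤ i → co a i = 0)

include h in
theorem co_zero (i : ℕ) : co 0 i = 0 := by
  have := h.add 0 0 i
  rw [add_zero] at this
  exact left_eq_add.1 this

include h in
theorem co_neg (a : A) (i : ℕ) : co (-a) i = - co a i := by
  have := h.add (-a) a i
  rw [neg_add_cancel, co_zero h] at this
  exact eq_neg_of_add_eq_zero_left this.symm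

include h in
theorem exists_co_ne {a : A} (ha : a ≠ 0) : ∃ i, co a i ≠ 0 := by
  by_contra hc
  push Not at hc
  exact ha (h.ext _ _ fun i => by rw [hc, co_zero h])

/-- Gauss norm -/
noncomputable def NN (co : A → ℕ → F) (v : Valuation F ℝ≥0) (D : A → ℕ) (a : A) (ρ : ℝ≥0) : ℝ≥0 :=
  (Finset.range (D a)).sup fun i => v (co a i) * ρ ^ (2 ^ i)

include hD in
theorem NN_le_iff (a : A) (ρ M : ℝ≥0) :
    NN co v D a ρ ≤ M ↔ ∀ i, v (co a i) * ρ ^ (2 ^ i) ≤ M := by
  unfold NN
  rw [Finset.sup_le_iff]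
  constructor
  · intro h1 i
    rcases lt_or_ge i (D a) with h2 | h2
    · exact h1 i (Finset.mem_range.2 h2)
    · rw [hD a i h2, map_zero, zero_mul]
      exact zero_le
  · intro h1 i _
    exact h1 i

include hD in
theorem term_le (a : A) (ρ : ℝ≥0) (i : ℕ) : v (co a i) * ρ ^ (2 ^ i) ≤ NN co v D a ρ :=
  (NN_le_iff v hD a ρ _).1 le_rfl i

include hD in
theorem NN_pos {a : A} (ha : ∃ i, co a i ≠ 0) {ρ : ℝ≥0} (hρ : 0 < ρ) : 0 < NN co v D a ρ := by
  obtain ⟨i, hi⟩ := ha
  refine lt_of_lt_of_le ?_ (term_le v hD a ρ i)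
  have h1 : 0 < v (co a i) := zero_lt_iff.2 ((Valuation.ne_zero_iff v).2 hi)
  positivity

include hD in
theorem NN_eq {a : A} (ha : ∃ i, co a i ≠ 0) {ρ : ℝ≥0} (hρ : 0 < ρ) :
    ∃ i, v (co a i) ≠ 0 ∧ NN co v D a ρ = v (co a i) * ρ ^ (2 ^ i) := by
  have hne : (Finset.range (D a)).Nonempty := by
    obtain ⟨i, hi⟩ := ha
    refine ⟨i, Finset.mem_range.2 ?_⟩
    by_contra hc
    exact hi (hD a i (not_lt.1 hc))
  obtain ⟨i, -, hi⟩ := Finset.exists_mem_eq_sup _ hne (fun i => v (co a i) * ρ ^ (2 ^ i))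
  have hi' : NN co v D a ρ = v (co a i) * ρ ^ (2 ^ i) := hi
  refine ⟨i, ?_, hi'⟩
  intro h0
  have := NN_pos v hD ha hρ
  rw [hi', h0, zero_mul] at this
  exact lt_irrefl _ this

include hD in
/-- least index where the maximum is attained -/
theorem NN_least {a : A} (ha : ∃ i, co a i ≠ 0) {ρ : ℝ≥0} (hρ : 0 < ρ) :
    ∃ i, v (co a i) ≠ 0 ∧ NN co v D a ρ = v (co a i) * ρ ^ (2 ^ i) ∧
      ∀ j < i, v (co a j) * ρ ^ (2 ^ j) < NN co v D a ρ := by
  classical
  have hex := NN_eq v hD ha hρ
  refine ⟨Nat.find hex, (Nat.find_spec hex).1, (Nat.find_spec hex).2, ?_⟩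
  intro j hj
  refine lt_of_le_of_ne (term_le v hD a ρ j) ?_
  intro h1
  refine Nat.find_min hex hj ⟨?_, h1.symm⟩
  intro h0
  have := NN_pos v hD ha hρ
  rw [← h1, h0, zero_mul] at this
  exact lt_irrefl _ this

include h hD in
theorem NN_zero (ρ : ℝ≥0) : NN co v D 0 ρ = 0 := by
  refine le_antisymm ((NN_le_iff v hD 0 ρ 0).2 fun i => ?_) zero_le
  rw [co_zero h, map_zero, zero_mul]

include hD in
theorem NN_at_zero (a : A) : NN co v D a 0 = 0 := by
  refine le_antisymm ((NN_le_iff v hD a 0 0).2 fun i => ?_) zero_le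
  rw [zero_pow (by positivity), mul_zero]

include h hD in
theorem NN_neg (a : A) (ρ : ℝ≥0) : NN co v D (-a) ρ = NN co v D a ρ := by
  apply le_antisymm
  · rw [NN_le_iff v hD]
    intro i
    rw [co_neg h, Valuation.map_neg]
    exact term_le v hD a ρ i
  · rw [NN_le_iff v hD]
    intro i
    have := term_le v hD (-a) ρ i
    rwa [co_neg h, Valuation.map_neg] at this

include h hD in
theorem NN_add (a b : A) (ρ : ℝ≥0) :
    NN co v D (a + b) ρ ≤ max (NN co v D a ρ) (NN co v D b ρ) := by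
  rw [NN_le_iff v hD]
  intro i
  rw [h.add]
  rcases le_total (v (co a i)) (v (co b i)) with h1 | h1
  · have h2 := v.map_add (co a i) (co b i)
    rw [max_eq_right h1] at h2
    refine le_trans ?_ (le_max_right _ _)
    exact (mul_le_mul_of_nonneg_right h2 zero_le).trans (term_le v hD b ρ i)
  · have h2 := v.map_add (co a i) (co b i)
    rw [max_eq_left h1] at h2
    refine le_trans ?_ (le_max_left _ _)
    exact (mul_le_mul_of_nonneg_right h2 zero_le).trans (term_le v hD a ρ i)

theorem term_eq (x y : F) (i j n : ℕ) (hn : i + j = n) (ρ : ℝ≥0) :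
    v (x * y ^ (2 ^ i)) * ρ ^ (2 ^ n) = v x * (v y * ρ ^ (2 ^ j)) ^ (2 ^ i) := by
  subst hn
  rw [map_mul, map_pow, mul_pow, ← pow_mul, ← pow_add, mul_assoc, add_comm j i]

include h hD in
theorem NN_mul (a b : A) (ρ : ℝ≥0) : NN co v D (a * b) ρ = NN co v D a (NN co v D b ρ) := by
  classical
  rcases eq_or_lt_of_le (zero_le (a := ρ)) with hρ | hρ
  · rw [← hρ, NN_at_zero v hD, NN_at_zero v hD, NN_at_zero v hD]
  by_cases ha : a = 0
  · rw [ha, zero_mul, NN_zero h v hD, NN_zero h v hD]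
  by_cases hb : b = 0
  · rw [hb, mul_zero, NN_zero h v hD, NN_at_zero v hD]
  have ha' := exists_co_ne h ha
  have hb' := exists_co_ne h hb
  have hσ : 0 < NN co v D b ρ := NN_pos v hD hb' hρ
  have hM : 0 < NN co v D a (NN co v D b ρ) := NN_pos v hD ha' hσ
  apply le_antisymm
  · rw [NN_le_iff v hD]
    intro n
    have hρn : 0 < ρ ^ (2 ^ n) := by positivity
    rw [← le_div_iff₀ hρn, h.mul]
    apply Valuation.map_sum_le
    rintro ⟨i, j⟩ hij
    rw [Finset.HasAntidiagonal.mem_antidiagonal] at hij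
    rw [le_div_iff₀ hρn, term_eq v _ _ i j n hij]
    refine le_trans ?_ (term_le v hD a _ i)
    apply mul_le_mul_of_nonneg_left _ zero_le
    exact pow_le_pow_left₀ zero_le (term_le v hD b ρ j) _
  · obtain ⟨i₀, hi1, hi2, hi3⟩ := NN_least v hD ha' hσ
    obtain ⟨j₀, hj1, hj2, hj3⟩ := NN_least v hD hb' hρ
    have hρn : 0 < ρ ^ (2 ^ (i₀ + j₀)) := by positivity
    have hkey : v (co (a * b) (i₀ + j₀)) = v (co a i₀ * co b j₀ ^ (2 ^ i₀)) := by
      rw [h.mul]
      apply Valuation.map_sum_eq_of_lt v (j := (i₀, j₀))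
        (f := fun p : ℕ × ℕ => co a p.1 * co b p.2 ^ (2 ^ p.1))
      · rw [Finset.HasAntidiagonal.mem_antidiagonal]
      · rintro ⟨i, j⟩ hij
        rw [Finset.mem_sdiff, Finset.HasAntidiagonal.mem_antidiagonal, Finset.mem_singleton] at hij
        obtain ⟨hij1, hij2⟩ := hij
        have hij1' : i + j = i₀ + j₀ := hij1
        refine lt_of_mul_lt_mul_right ?_ (zero_le (a := ρ ^ (2 ^ (i₀ + j₀))))
        show v (co a i * co b j ^ (2 ^ i)) * _ < v (co a i₀ * co b j₀ ^ (2 ^ i₀)) * _
        rw [term_eq v _ _ i j _ hij1', term_eq v _ _ i₀ j₀ _ rfl, ← hj2, ← hi2]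
        rcases lt_trichotomy i i₀ with h1 | h1 | h1
        · refine lt_of_le_of_lt ?_ (hi3 i h1)
          apply mul_le_mul_of_nonneg_left _ zero_le
          exact pow_le_pow_left₀ zero_le (term_le v hD b ρ j) _
        · exfalso
          apply hij2
          subst h1
          rw [show j = j₀ by omega]
        · by_cases h0 : v (co a i) = 0
          · rw [h0, zero_mul]; exact hM
          · refine lt_of_lt_of_le ?_ (term_le v hD a _ i)
            apply mul_lt_mul_of_pos_left _ (zero_lt_iff.2 h0)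
            exact pow_lt_pow_left₀ (hj3 j (by omega)) zero_le (by positivity)
    have h1 := term_le v hD (a * b) ρ (i₀ + j₀)
    rw [hkey, term_eq v _ _ i₀ j₀ _ rfl, ← hj2, ← hi2] at h1
    exact h1

include h v hD in
theorem no_zero_div {a b : A} (ha : a ≠ 0) (hb : b ≠ 0) : a * b ≠ 0 := by
  intro h0
  have h1 := NN_mul h v hD a b 1
  rw [h0, NN_zero h v hD] at h1
  have h2 := NN_pos v hD (exists_co_ne h ha) (NN_pos v hD (exists_co_ne h hb) one_pos)
  rw [← h1] at h2
  exact lt_irrefl _ h2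

include h in
theorem co_mono_mul {k : ℕ} {x : F} {m : A} (hm : ∀ i, co m i = if i = k then x else 0) (b : A)
    (l : ℕ) : co (m * b) (k + l) = x * co b l ^ (2 ^ k) := by
  classical
  rw [h.mul, Finset.sum_eq_single (k, l)]
  · rw [hm]; simp
  · rintro ⟨i, j⟩ hij hne
    rw [Finset.HasAntidiagonal.mem_antidiagonal] at hij
    have hij' : i + j = k + l := hij
    have : i ≠ k := by
      intro h1
      apply hne
      subst h1
      rw [show j = l by omega]
    show co m i * _ = 0
    rw [hm, if_neg this, zero_mul]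
  · intro hc
    exact absurd (Finset.HasAntidiagonal.mem_antidiagonal.2
      (show (k, l).1 + (k, l).2 = k + l from rfl)) hc

include h in
/-- division with remainder -/
theorem division (b : A) (n : ℕ) (hn : co b n ≠ 0) (hn' : ∀ i, n < i → co b i = 0) (m : ℕ) :
    ∀ a : A, (∀ i, m ≤ i → co a i = 0) → ∃ q r : A, a = q * b + r ∧ ∀ i, n ≤ i → co r i = 0 := by
  induction m with
  | zero =>
    intro a ha
    exact ⟨0, a, by rw [zero_mul, zero_add], fun i _ => ha i (Nat.zero_le i)⟩
  | succ m ih =>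
    intro a ha
    rcases lt_or_ge m n with h1 | h1
    · exact ⟨0, a, by rw [zero_mul, zero_add], fun i hi => ha i (by omega)⟩
    · obtain ⟨k, rfl⟩ := Nat.exists_eq_add_of_le' h1
      obtain ⟨s, hs⟩ := h.mono k (co a (k + n) / co b n ^ (2 ^ k))
      have h2 : ∀ i, k + n ≤ i → co (a - s * b) i = 0 := by
        intro i hi
        obtain ⟨l, rfl⟩ := Nat.exists_eq_add_of_le hi
        rw [sub_eq_add_neg, h.add, co_neg h, add_assoc k n l, co_mono_mul h hs]
        rcases Nat.eq_zero_or_pos l with hl | hl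
        · subst hl
          rw [add_zero, div_mul_cancel₀ _ (pow_ne_zero _ hn), add_neg_cancel]
        · rw [hn' (n + l) (by omega), ha (k + (n + l)) (by omega), zero_pow (by positivity),
            mul_zero, neg_zero, add_zero]
      obtain ⟨q, r, hqr, hr⟩ := ih _ h2
      refine ⟨q + s, r, ?_, hr⟩
      rw [add_mul, sub_eq_iff_eq_add.1 hqr]
      abel

include h v hD in
theorem ore_aux (n : ℕ) : ∀ a b : A, b ≠ 0 → (∀ i, n ≤ i → co b i = 0) →
    ∃ c d : A, c ≠ 0 ∧ c * a = d * b := by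
  induction n using Nat.strong_induction_on with
  | _ n ih =>
    intro a b hb hbn
    classical
    -- the degree of b
    obtain ⟨i₁, hi₁⟩ := exists_co_ne h hb
    have hex : ∃ m, ∀ i, m < i → co b i = 0 := ⟨n, fun i hi => hbn i hi.le⟩
    have hd' := Nat.find_spec hex
    have hd : co b (Nat.find hex) ≠ 0 := by
      intro h0
      rcases Nat.eq_zero_or_pos (Nat.find hex) with h1 | h1
      · have h2 : i₁ = 0 ∨ 0 < i₁ := Nat.eq_zero_or_pos i₁
        rcases h2 with h2 | h2
        · rw [h1] at h0; rw [h2] at hi₁; exact hi₁ h0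
        · exact hi₁ (hd' i₁ (by omega))
      · refine Nat.find_min hex (m := Nat.find hex - 1) (by omega) ?_
        intro i hi
        rcases eq_or_lt_of_le (show Nat.find hex ≤ i by omega) with h2 | h2
        · rw [← h2]; exact h0
        · exact hd' i h2
    have hlt : Nat.find hex < n := by
      by_contra hc
      exact hd (hbn _ (not_lt.1 hc))
    obtain ⟨m, hm⟩ := h.fin a
    obtain ⟨q, r, hqr, hr⟩ := division h b (Nat.find hex) hd hd' m a hm
    by_cases hr0 : r = 0
    · refine ⟨1, q, ?_, ?_⟩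
      · intro h1
        have h2 := h.one 0
        rw [h1, co_zero h] at h2
        simp at h2
      · rw [one_mul, hqr, hr0, add_zero]
    · obtain ⟨w, w₂, hw, hww⟩ := ih (Nat.find hex) hlt b r hr0 hr
      refine ⟨w₂, w₂ * q + w, ?_, ?_⟩
      · intro h0
        rw [h0, zero_mul] at hww
        exact no_zero_div h v hD hw hb hww
      · rw [hqr, mul_add, add_mul, ← hww, mul_assoc]

end

/-- The ring `A = F[t; Frob]` of skew polynomials (`t a = a^2 t`), `F` a field of characteristic 2 with a nontrivial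
multiplicative nonarchimedean absolute value `|.|` (e.g. `RatFunc (ZMod 2)`, `|f| = 2 ^ deg f`), together with the
Gauss norms `N (∑ a_i t^i) ρ = max_i |a_i| ρ^(2^i)`. -/
theorem exists_skew_ring : ∃ (A : Type) (_ : Ring A) (N : A → ℝ≥0 → ℝ≥0) (T g g' : A),
    (∀ a : A, ∀ ρ : ℝ≥0, 0 < ρ → (N a ρ = 0 ↔ a = 0)) ∧
    (∀ a : A, N a 0 = 0) ∧
    (∀ a : A, ∀ ρ : ℝ≥0, N (-a) ρ = N a ρ) ∧
    (∀ a b : A, ∀ ρ : ℝ≥0, N (a + b) ρ ≤ max (N a ρ) (N b ρ)) ∧
    (∀ a b : A, ∀ ρ : ℝ≥0, N (a * b) ρ = N a (N b ρ)) ∧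
    (∀ ρ : ℝ≥0, N 1 ρ = ρ) ∧
    (∀ a : A, a ≠ 0 → StrictMono (N a)) ∧
    (∀ a : A, Continuous (N a)) ∧
    (∀ a : A, a ≠ 0 → ∀ y : ℝ≥0, ∃ ρ : ℝ≥0, y ≤ N a ρ) ∧
    (∀ ρ : ℝ≥0, N T ρ = ρ ^ 2) ∧
    (g * g' = 1 ∧ g' * g = 1 ∧ ∃ c : ℝ≥0, 1 < c ∧ ∀ ρ : ℝ≥0, N g ρ = c * ρ) ∧
    (∀ a b : A, b ≠ 0 → ∃ c d : A, c ≠ 0 ∧ c * a = d * b) := by
  obtain ⟨F, _, _, v, x, hx⟩ := exists_val
  obtain ⟨A, _, co, h⟩ := exists_mdl F
  choose D hD using h.fin
  have hx0 : x ≠ 0 := by
    intro h0
    rw [h0, map_zero] at hx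
    exact absurd hx (not_lt.2 zero_le)
  -- norms of monomials
  have hmono : ∀ (k : ℕ) (y : F) (m : A), (∀ i, co m i = if i = k then y else 0) → ∀ ρ : ℝ≥0,
      NN co v D m ρ = v y * ρ ^ (2 ^ k) := by
    intro k y m hm ρ
    apply le_antisymm
    · rw [NN_le_iff v hD]
      intro i
      rw [hm]
      by_cases hi : i = k
      · rw [if_pos hi, hi]
      · rw [if_neg hi, map_zero, zero_mul]; exact zero_le
    · have := term_le v hD m ρ k
      rwa [hm, if_pos rfl] at this
  obtain ⟨T, hT⟩ := h.mono 1 1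
  obtain ⟨g, hg⟩ := h.mono 0 x
  obtain ⟨g', hg'⟩ := h.mono 0 x⁻¹
  have hone : ∀ i, co 1 i = if i = 0 then 1 else 0 := h.one
  have hgmul : ∀ (y z : F) (m m' : A), (∀ i, co m i = if i = 0 then y else 0) →
      (∀ i, co m' i = if i = 0 then z else 0) → y * z = 1 → m * m' = 1 := by
    intro y z m m' hm hm' hyz
    apply h.ext
    intro i
    have h1 := co_mono_mul h hm m' i
    rw [zero_add, pow_zero, pow_one, hm'] at h1
    rw [h1, hone]
    by_cases hi : i = 0
    · rw [if_pos hi, if_pos hi, hyz]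
    · rw [if_neg hi, if_neg hi, mul_zero]
  refine ⟨A, inferInstance, NN co v D, T, g, g', ?_, NN_at_zero v hD, NN_neg h v hD,
    NN_add h v hD, NN_mul h v hD, ?_, ?_, ?_, ?_, ?_, ⟨?_, ?_, v x, hx, ?_⟩, ?_⟩
  · intro a ρ hρ
    constructor
    · intro h0
      by_contra ha
      have := NN_pos v hD (exists_co_ne h ha) hρ
      rw [h0] at this
      exact lt_irrefl _ this
    · intro ha
      rw [ha]; exact NN_zero h v hD ρ
  · intro ρ
    rw [hmono 0 1 1 hone, map_one, one_mul, pow_zero, pow_one]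
  · intro a ha ρ σ hρσ
    rcases eq_or_lt_of_le (zero_le (a := ρ)) with hρ | hρ
    · rw [← hρ, NN_at_zero v hD]
      exact NN_pos v hD (exists_co_ne h ha) (by rw [hρ]; exact hρσ)
    · obtain ⟨i, hi, hi2⟩ := NN_eq v hD (exists_co_ne h ha) hρ
      rw [hi2]
      refine lt_of_lt_of_le ?_ (term_le v hD a σ i)
      apply mul_lt_mul_of_pos_left _ (zero_lt_iff.2 hi)
      exact pow_lt_pow_left₀ hρσ zero_le (by positivity)
  · intro a
    unfold NN
    apply Continuous.finset_sup_apply
    intro i _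
    fun_prop
  · intro a ha y
    obtain ⟨i, hi⟩ := exists_co_ne h ha
    have hv : 0 < v (co a i) := zero_lt_iff.2 ((Valuation.ne_zero_iff v).2 hi)
    refine ⟨max 1 (y / v (co a i)), le_trans ?_ (term_le v hD a _ i)⟩
    have h1 : max 1 (y / v (co a i)) ≤ (max 1 (y / v (co a i))) ^ (2 ^ i) :=
      le_self_pow₀ (le_max_left _ _) (by positivity)
    calc y = v (co a i) * (y / v (co a i)) := by
          rw [mul_div_cancel₀ _ hv.ne']
      _ ≤ v (co a i) * max 1 (y / v (co a i)) := by
          apply mul_le_mul_of_nonneg_left (le_max_right _ _) zero_le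
      _ ≤ _ := mul_le_mul_of_nonneg_left h1 zero_le
  · intro ρ
    rw [hmono 1 1 T hT, map_one, one_mul, pow_one]
  · exact hgmul x x⁻¹ g g' hg hg' (mul_inv_cancel₀ hx0)
  · exact hgmul x⁻¹ x g' g hg' hg (inv_mul_cancel₀ hx0)
  · intro ρ
    rw [hmono 0 x g hg, pow_zero, pow_one]
  · intro a b hb
    obtain ⟨n, hn⟩ := h.fin b
    exact ore_aux h v hD n a b hb hn

end Pool.Agent.Helper896.FacchiniSkew
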